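import Mathlib

/-!
Sums over embeddings and sums over conjugates.
-/

set_option autoImplicit false

namespace Pool.Agent.H420R2

open Polynomial IntermediateField Module

noncomputable section

variable {K L : Type*} [Field K] [Field L] [Algebra K L]

/-- the conjugates over `K` of `z`, as complex numbers -/
def cj (K : Type*) {L : Type*} [Field K] [Field L] [Algebra K L] [Algebra K ℂ] (z : L) :
    Finset ℂ :=
  ((minpoly K z).aroots ℂ).toFinset

variable [Algebra K ℂ]

lemma mem_cj {z : L} (hz : IsIntegral K z) {y : ℂ} : y ∈ cj K z ↔ aeval y (minpoly K z) = 0 := by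
  unfold cj
  rw [Multiset.mem_toFinset, mem_aroots]
  exact ⟨fun h => h.2, fun h => ⟨minpoly.ne_zero hz, h⟩⟩

variable [FiniteDimensional K L] [CharZero K]

lemma sum_embeddings (z : L) (ψ : ℂ → ℝ) :
    ∑ σ : L →ₐ[K] ℂ, ψ (σ z) = (finrank K⟮z⟯ L : ℝ) * ∑ y ∈ cj K z, ψ y := by
  have hz : IsIntegral K z := Algebra.IsIntegral.isIntegral z
  have e1 := Fintype.sum_equiv (algHomEquivSigma (A := K) (B := K⟮z⟯) (C := L) (D := ℂ))
    (fun σ : L →ₐ[K] ℂ => ψ (σ z)) (fun σ => ψ (σ.1 (AdjoinSimple.gen K z))) (by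
      intro σ
      simp only [algHomEquivSigma, Equiv.coe_fn_mk, AlgHom.domRestrict, AlgHom.comp_apply,
        IsScalarTower.coe_toAlgHom', AdjoinSimple.algebraMap_gen])
  rw [e1, ← Finset.univ_sigma_univ, Finset.sum_sigma]
  have e2 : ∀ σ : K⟮z⟯ →ₐ[K] ℂ,
      ∑ s : (@AlgHom K⟮z⟯ L ℂ _ _ _ _ σ.toRingHom.toAlgebra),
        ψ (σ (AdjoinSimple.gen K z)) = (finrank K⟮z⟯ L : ℝ) * ψ (σ (AdjoinSimple.gen K z)) := by
    intro σ
    let : Algebra K⟮z⟯ ℂ := σ.toRingHom.toAlgebra
    rw [Finset.sum_const, Finset.card_univ, nsmul_eq_mul]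
    congr 2
    exact AlgHom.card K⟮z⟯ L ℂ
  rw [Finset.sum_congr rfl fun σ _ => e2 σ, ← Finset.mul_sum]
  congr 1
  have e3 := Fintype.sum_equiv (algHomAdjoinIntegralEquiv K (K := ℂ) hz)
    (fun σ : K⟮z⟯ →ₐ[K] ℂ => ψ (σ (AdjoinSimple.gen K z)))
    (fun y => ψ (y : ℂ)) (by
      intro σ
      obtain ⟨y, rfl⟩ := (algHomAdjoinIntegralEquiv K (K := ℂ) hz).symm.surjective σ
      rw [algHomAdjoinIntegralEquiv_symm_apply_gen, Equiv.apply_symm_apply])
  rw [e3]
  exact (Finset.sum_subtype (cj K z) (fun y => by simp [cj]) ψ).symm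

end

noncomputable section

variable {K L : Type*} [Field K] [NumberField K] [Field L] [NumberField L] [Algebra K L]

/-- the conjugates of `z` over a given embedding of the base field -/
def cjt (τ : K →ₐ[ℚ] ℂ) (z : L) : Finset ℂ := @cj K L _ _ _ τ.toRingHom.toAlgebra z

/-- restriction of an embedding to the base field -/
def res (φ : L →ₐ[ℚ] ℂ) : K →ₐ[ℚ] ℂ := φ.domRestrict K

lemma res_apply (φ : L →ₐ[ℚ] ℂ) (a : K) : res φ a = φ (algebraMap K L a) := rfl

lemma sum_all (z : L) (ψ : (K →ₐ[ℚ] ℂ) → ℂ → ℝ) :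
    ∑ φ : L →ₐ[ℚ] ℂ, ψ (res φ) (φ z) =
      (finrank K⟮z⟯ L : ℝ) * ∑ τ : K →ₐ[ℚ] ℂ, ∑ y ∈ cjt τ z, ψ τ y := by
  have e1 := Fintype.sum_equiv (algHomEquivSigma (A := ℚ) (B := K) (C := L) (D := ℂ))
    (fun φ : L →ₐ[ℚ] ℂ => ψ (res φ) (φ z)) (fun σ => ψ σ.1 (σ.2 z)) (by
      intro σ
      rfl)
  rw [e1, ← Finset.univ_sigma_univ, Finset.sum_sigma, Finset.mul_sum]
  refine Finset.sum_congr rfl fun τ _ => ?_
  let : Algebra K ℂ := τ.toRingHom.toAlgebra
  exact sum_embeddings z (ψ τ)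

/-- a polynomial over the ring of integers, seen over the complex numbers -/
def pol (τ : K →ₐ[ℚ] ℂ) (g : (NumberField.RingOfIntegers K)[X]) : ℂ[X] :=
  g.map (τ.toRingHom.comp (algebraMap (NumberField.RingOfIntegers K) K))

lemma map_aeval (φ : L →ₐ[ℚ] ℂ) (z : NumberField.RingOfIntegers L)
    (g : (NumberField.RingOfIntegers K)[X]) :
    φ ((aeval z g : NumberField.RingOfIntegers L) : L) = (pol (res φ) g).eval (φ (z : L)) := by
  have h1 : ((aeval z g : NumberField.RingOfIntegers L) : L) = aeval (z : L) g := by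
    have := aeval_algebraMap_apply L z g
    exact this.symm
  rw [h1, pol, eval_map, aeval_def, show φ (eval₂ (algebraMap (NumberField.RingOfIntegers K) L)
    (z : L) g) = φ.toRingHom (eval₂ (algebraMap (NumberField.RingOfIntegers K) L) (z : L) g)
    from rfl, hom_eval₂]
  rfl

lemma pol_minpoly (τ : K →ₐ[ℚ] ℂ) (z : NumberField.RingOfIntegers L) :
    pol τ (minpoly (NumberField.RingOfIntegers K) z) = ∏ y ∈ cjt τ (z : L), (X - C y) := by
  let : Algebra K ℂ := τ.toRingHom.toAlgebra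
  have hz : IsIntegral (NumberField.RingOfIntegers K) z := Algebra.IsIntegral.isIntegral z
  have hz' : IsIntegral K (z : L) := Algebra.IsIntegral.isIntegral _
  have h1 : pol τ (minpoly (NumberField.RingOfIntegers K) z) =
      (minpoly K (z : L)).map (algebraMap K ℂ) := by
    rw [minpoly.isIntegrallyClosed_eq_field_fractions K L hz, pol, Polynomial.map_map]
    rfl
  rw [h1]
  have h2 : ((minpoly K (z : L)).map (algebraMap K ℂ)).Monic := (minpoly.monic hz').map _
  have h3 : ((minpoly K (z : L)).map (algebraMap K ℂ)).Splits := IsAlgClosed.splits _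
  have h4 : ((minpoly K (z : L)).map (algebraMap K ℂ)).roots.Nodup :=
    nodup_roots ((minpoly.irreducible hz').separable.map)
  rw [h3.eq_prod_roots_of_monic h2]
  have h5 : (cjt τ (z : L)).val = ((minpoly K (z : L)).map (algebraMap K ℂ)).roots := by
    have : (cjt τ (z : L)).val = (((minpoly K (z : L)).map (algebraMap K ℂ)).roots).dedup := rfl
    rw [this, h4.dedup]
  rw [Finset.prod_eq_multiset_prod, h5, ← h3.eq_prod_roots_of_monic h2]

lemma card_cjt (τ : K →ₐ[ℚ] ℂ) (z : NumberField.RingOfIntegers L) :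
    (cjt τ (z : L)).card = (minpoly (NumberField.RingOfIntegers K) z).natDegree := by
  have hz : IsIntegral (NumberField.RingOfIntegers K) z := Algebra.IsIntegral.isIntegral z
  have h1 := congrArg natDegree (pol_minpoly τ z)
  rw [natDegree_prod_of_monic _ _ (fun y _ => monic_X_sub_C y)] at h1
  simp only [natDegree_X_sub_C, Finset.sum_const, smul_eq_mul, mul_one] at h1
  rw [← h1, pol, (minpoly.monic hz).natDegree_map]

end

end Pool.Agent.H420R2
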