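import Mathlib

/-!
Congruences for polynomials reducing to a power of Frobenius.
-/

set_option autoImplicit false

namespace Pool.Agent.H420R2

open Polynomial

noncomputable section

variable {F : Type*} [Field F] [Fintype F]

lemma comp_X_pow_card_pow (g : F[X]) (k : ℕ) :
    g.comp (X ^ (Fintype.card F ^ k)) = g ^ (Fintype.card F ^ k) := by
  induction k with
  | zero => simp
  | succ k ih =>
    have h1 : (X : F[X]) ^ (Fintype.card F ^ (k + 1)) =
        (X ^ (Fintype.card F)).comp (X ^ (Fintype.card F ^ k)) := by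
      rw [X_pow_comp, ← pow_mul]
      congr 1
    rw [h1, ← comp_assoc]
    have h2 : g.comp (X ^ Fintype.card F) = g ^ Fintype.card F := by
      rw [← expand_eq_comp_X_pow, FiniteField.expand_card]
    rw [h2, pow_comp, ih, ← pow_mul]
    congr 1

lemma charpoly_pow_card_pow {n : Type*} [DecidableEq n] [Fintype n] (M : Matrix n n F) (k : ℕ) :
    (M ^ (Fintype.card F ^ k)).charpoly = M.charpoly := by
  induction k with
  | zero => simp
  | succ k ih =>
    rw [pow_succ (Fintype.card F) k, pow_mul, FiniteField.Matrix.charpoly_pow_card, ih]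

variable {R : Type*} [CommRing R]

/-- multiplication by the root, as a matrix -/
def mulMat (m : R[X]) (hm : m.Monic) :
    Matrix (Fin (AdjoinRoot.powerBasis' hm).dim) (Fin (AdjoinRoot.powerBasis' hm).dim) R :=
  Algebra.leftMulMatrix (AdjoinRoot.powerBasis' hm).basis (AdjoinRoot.root m)

lemma aeval_mulMat {m : R[X]} (hm : m.Monic) (g : R[X]) :
    aeval (mulMat m hm) g =
      Algebra.leftMulMatrix (AdjoinRoot.powerBasis' hm).basis (AdjoinRoot.mk m g) := by
  rw [mulMat, aeval_algHom_apply, AdjoinRoot.aeval_eq]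

lemma aeval_mulMat_eq_zero {m : R[X]} (hm : m.Monic) (g : R[X])
    (h : aeval (mulMat m hm) g = 0) : m ∣ g := by
  rw [aeval_mulMat] at h
  rw [← AdjoinRoot.mk_eq_zero]
  apply Algebra.leftMulMatrix_injective (AdjoinRoot.powerBasis' hm).basis
  rw [h, map_zero]

lemma monic_eq_of_dvd {a b : R[X]} (ha : a.Monic) (hb : b.Monic) (h : a ∣ b)
    (hd : b.natDegree ≤ a.natDegree) : a = b :=
  (eq_of_monic_of_dvd_of_natDegree_le ha hb h hd).symm

variable [Nontrivial R]

lemma charpoly_mulMat {m : R[X]} (hm : m.Monic) : (mulMat m hm).charpoly = m := by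
  symm
  apply monic_eq_of_dvd hm (Matrix.charpoly_monic _)
  · exact aeval_mulMat_eq_zero hm _ (Matrix.aeval_self_charpoly _)
  · rw [Matrix.charpoly_natDegree_eq_dim, Fintype.card_fin, AdjoinRoot.powerBasis'_dim]

/-- If `f` reduces to a power of Frobenius, then `m` and the minimal polynomial of the
image of the root have the same reduction as soon as they have the same degree. -/
lemma map_eq_map {π : R →+* F} {f m m' : R[X]} {k : ℕ}
    (hf : f.map π = X ^ (Fintype.card F ^ k)) (hm : m.Monic) (hm' : m'.Monic)
    (hdeg : m'.natDegree = m.natDegree) (h : ∀ χ : R[X], m ∣ χ.comp f → m' ∣ χ) :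
    m'.map π = m.map π := by
  set M := mulMat m hm with hM
  set χ := (aeval M f).charpoly with hχ
  have h1 : aeval M (χ.comp f) = 0 := by
    rw [aeval_comp]
    exact Matrix.aeval_self_charpoly _
  have h2 : m' ∣ χ := h χ (aeval_mulMat_eq_zero hm _ h1)
  have h3 : m' = χ := by
    apply monic_eq_of_dvd hm' (Matrix.charpoly_monic _) h2
    rw [Matrix.charpoly_natDegree_eq_dim, Fintype.card_fin, AdjoinRoot.powerBasis'_dim, hdeg]
  have h4 : χ.map π = ((aeval M f).map π).charpoly := (Matrix.charpoly_map _ _).symm
  have h5 : (aeval M f).map π = (M.map π) ^ (Fintype.card F ^ k) := by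
    have h6 : (aeval M f).map π = aeval (M.map π) (f.map π) := by
      have h7 := hom_eval₂ f (algebraMap R (Matrix _ _ R))
        (π.mapMatrix (m := Fin (AdjoinRoot.powerBasis' hm).dim)) M
      rw [aeval_def, aeval_def, eval₂_map]
      have h8 : (π.mapMatrix (m := Fin (AdjoinRoot.powerBasis' hm).dim)).comp
          (algebraMap R (Matrix _ _ R)) = (algebraMap F (Matrix _ _ F)).comp π := by
        ext r a b
        simp only [RingHom.comp_apply, RingHom.mapMatrix_apply, Matrix.map_apply,
          Matrix.algebraMap_matrix_apply]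
        split_ifs <;> simp
      rw [h8] at h7
      exact h7
    rw [h6, hf]
    simp
  rw [h3, h4, h5, charpoly_pow_card_pow, Matrix.charpoly_map, charpoly_mulMat hm]

end

end Pool.Agent.H420R2
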