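import Mathlib
import Pool.Agent.H420R2.Frob
import Pool.Agent.H420R2.Fiber

/-!
Arithmetic of the conjugates of an orbit.
-/

set_option autoImplicit false

namespace Pool.Agent.H420R2

open Polynomial NumberField Module IntermediateField

noncomputable section

variable {K L : Type*} [Field K] [NumberField K] [Field L] [NumberField L] [Algebra K L]

/-- the orbit of an algebraic integer -/
def xs (f : (𝓞 K)[X]) (x : 𝓞 L) (n : ℕ) : 𝓞 L := (fun y : 𝓞 L => aeval y f)^[n] x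

lemma xs_succ (f : (𝓞 K)[X]) (x : 𝓞 L) (n : ℕ) : xs f x (n + 1) = aeval (xs f x n) f := by
  unfold xs
  rw [Function.iterate_succ_apply']

/-- minimal polynomial of the `n`-th point of the orbit -/
def mp (f : (𝓞 K)[X]) (x : 𝓞 L) (n : ℕ) : (𝓞 K)[X] := minpoly (𝓞 K) (xs f x n)

lemma isInt (z : 𝓞 L) : IsIntegral (𝓞 K) z := Algebra.IsIntegral.isIntegral z

lemma mp_monic (f : (𝓞 K)[X]) (x : 𝓞 L) (n : ℕ) : (mp f x n).Monic := minpoly.monic (isInt _)

lemma mp_dvd_comp (f : (𝓞 K)[X]) (x : 𝓞 L) (n : ℕ) : mp f x n ∣ (mp f x (n + 1)).comp f := by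
  apply minpoly.isIntegrallyClosed_dvd (isInt _)
  rw [aeval_comp, ← xs_succ]
  exact minpoly.aeval _ _

lemma minpoly_coe (z : 𝓞 L) :
    minpoly K (z : L) = (minpoly (𝓞 K) z).map (algebraMap (𝓞 K) K) :=
  minpoly.isIntegrallyClosed_eq_field_fractions K L (isInt z)

lemma natDegree_minpoly_coe (z : 𝓞 L) :
    (minpoly K (z : L)).natDegree = (minpoly (𝓞 K) z).natDegree := by
  rw [minpoly_coe, (minpoly.monic (isInt z)).natDegree_map]

/-- if the minimal polynomial of `z` vanishes at `w` then they have the same minimal polynomial -/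
lemma minpoly_eq_of_aeval {z w : 𝓞 L} (h : aeval w (minpoly (𝓞 K) z) = 0) :
    minpoly (𝓞 K) w = minpoly (𝓞 K) z := by
  have h1 : aeval (w : L) (minpoly K (z : L)) = 0 := by
    rw [minpoly_coe, aeval_map_algebraMap]
    have h2 := congrArg (algebraMap (𝓞 L) L) h
    rw [map_zero, ← aeval_algebraMap_apply] at h2
    exact h2
  have h3 : minpoly K (w : L) = minpoly K (z : L) :=
    (minpoly.eq_of_irreducible_of_monic
      (minpoly.irreducible (Algebra.IsIntegral.isIntegral (R := K) (z : L))) h1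
      (minpoly.monic (Algebra.IsIntegral.isIntegral (R := K) (z : L)))).symm
  rw [minpoly_coe, minpoly_coe] at h3
  exact Polynomial.map_injective _ (IsFractionRing.injective (𝓞 K) K) h3

lemma aeval_step {f : (𝓞 K)[X]} {x : 𝓞 L} {n : ℕ} {z : 𝓞 L} (h : aeval z (mp f x n) = 0) :
    aeval (aeval z f) (mp f x (n + 1)) = 0 := by
  obtain ⟨c, hc⟩ := mp_dvd_comp f x n
  rw [← aeval_comp, hc, map_mul, h, zero_mul]

lemma aeval_steps {f : (𝓞 K)[X]} {x : 𝓞 L} {n : ℕ} {z : 𝓞 L} (h : aeval z (mp f x n) = 0)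
    (k : ℕ) : aeval ((fun y : 𝓞 L => aeval y f)^[k] z) (mp f x (n + k)) = 0 := by
  induction k with
  | zero => exact h
  | succ k ih =>
    rw [Function.iterate_succ_apply']
    exact aeval_step ih

lemma xs_add (f : (𝓞 K)[X]) (x : 𝓞 L) (n k : ℕ) :
    (fun y : 𝓞 L => aeval y f)^[k] (xs f x n) = xs f x (n + k) := by
  unfold xs
  rw [← Function.iterate_add_apply, add_comm]

/-- conjugate points of the orbit force the orbit to be finite -/
lemma not_mp_eq {f : (𝓞 K)[X]} {x : 𝓞 L} (hinj : Function.Injective (xs f x)) {i h : ℕ}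
    (hh : 0 < h) : mp f x (i + h) ≠ mp f x i := by
  intro heq
  have h1 : ∀ k, aeval (xs f x (i + k * h)) (mp f x i) = 0 := by
    intro k
    induction k with
    | zero =>
      rw [zero_mul, add_zero]
      exact minpoly.aeval _ _
    | succ k ih =>
      have h2 := aeval_steps ih h
      rw [xs_add, heq] at h2
      rw [add_mul, one_mul, ← add_assoc]
      exact h2
  have h3 : (Set.range fun k => xs f x (i + k * h)) ⊆ (mp f x i).rootSet (𝓞 L) := by
    rintro _ ⟨k, rfl⟩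
    rw [mem_rootSet]
    exact ⟨(mp_monic f x i).ne_zero, h1 k⟩
  have h4 : (Set.range fun k => xs f x (i + k * h)).Finite := (rootSet_finite _ _).subset h3
  refine Set.infinite_range_of_injective ?_ h4
  intro a b hab
  have := hinj hab
  exact Nat.eq_of_mul_eq_mul_right hh (by omega)

lemma aeval_ne_zero {f : (𝓞 K)[X]} {x : 𝓞 L} (hinj : Function.Injective (xs f x)) {i j : ℕ}
    (hij : i ≠ j) : aeval (xs f x j) (mp f x i) ≠ 0 := by
  intro h
  have h1 : mp f x j = mp f x i := minpoly_eq_of_aeval h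
  rcases lt_or_gt_of_ne hij with h2 | h2
  · obtain ⟨k, rfl⟩ := Nat.exists_eq_add_of_lt h2
    exact not_mp_eq hinj (h := k + 1) (by omega) (by rw [← add_assoc]; exact h1)
  · obtain ⟨k, rfl⟩ := Nat.exists_eq_add_of_lt h2
    exact not_mp_eq hinj (h := k + 1) (by omega) (by rw [← add_assoc]; exact h1.symm)

/-- logarithm of the absolute norm -/
def lam (z : 𝓞 L) : ℝ := ∑ φ : L →ₐ[ℚ] ℂ, Real.log ‖φ (z : L)‖

lemma lam_mul {z w : 𝓞 L} (hz : z ≠ 0) (hw : w ≠ 0) : lam (z * w) = lam z + lam w := by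
  unfold lam
  rw [← Finset.sum_add_distrib]
  refine Finset.sum_congr rfl fun φ _ => ?_
  rw [show ((z * w : 𝓞 L) : L) = (z : L) * (w : L) from rfl, map_mul, norm_mul, Real.log_mul]
  · rw [norm_ne_zero_iff]
    exact (map_ne_zero φ).mpr (RingOfIntegers.coe_ne_zero_iff.mpr hz)
  · rw [norm_ne_zero_iff]
    exact (map_ne_zero φ).mpr (RingOfIntegers.coe_ne_zero_iff.mpr hw)

lemma lam_eq_log_norm {z : 𝓞 L} (hz : z ≠ 0) :
    lam z = Real.log |((Algebra.norm ℤ z : ℤ) : ℝ)| := by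
  have h1 := Algebra.norm_eq_prod_embeddings ℚ ℂ (z : L)
  have h2 : (Algebra.norm ℚ (z : L)) = ((Algebra.norm ℤ z : ℤ) : ℚ) :=
    (Algebra.coe_norm_int z).symm
  have h3 : ‖(∏ σ : L →ₐ[ℚ] ℂ, σ (z : L))‖ = |((Algebra.norm ℤ z : ℤ) : ℝ)| := by
    rw [← h1, h2]
    simp
  rw [← h3, norm_prod, Real.log_prod]
  · rfl
  · intro φ _
    rw [norm_ne_zero_iff]
    exact (map_ne_zero φ).mpr (RingOfIntegers.coe_ne_zero_iff.mpr hz)

lemma lam_nonneg {z : 𝓞 L} (hz : z ≠ 0) : 0 ≤ lam z := by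
  rw [lam_eq_log_norm hz]
  apply Real.log_nonneg
  have h1 : Algebra.norm ℤ z ≠ 0 := Algebra.norm_ne_zero_iff.mpr hz
  exact_mod_cast Int.one_le_abs h1

lemma lam_ge_of_mem {P : Ideal (𝓞 K)} {z : 𝓞 L} (hz : z ≠ 0)
    (hP : P ≠ ⊥) (hmem : z ∈ P.map (algebraMap (𝓞 K) (𝓞 L))) :
    (finrank K L : ℝ) * Real.log (Ideal.absNorm P) ≤ lam z := by
  rw [lam_eq_log_norm hz]
  have h1 := Ideal.absNorm_dvd_norm_of_mem hmem
  rw [Ideal.absNorm_algebraMap] at h1
  have h0 : Algebra.norm ℤ z ≠ 0 := Algebra.norm_ne_zero_iff.mpr hz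
  have h2 : ((Ideal.absNorm P ^ finrank (𝓞 K) (𝓞 L) : ℕ) : ℤ) ≤ |Algebra.norm ℤ z| :=
    Int.le_of_dvd (abs_pos.mpr h0) ((dvd_abs _ _).mpr h1)
  have h3 : finrank (𝓞 K) (𝓞 L) = finrank K L := (IsFractionRing.finrank_eq (𝓞 K) K (𝓞 L) L).symm
  rw [h3] at h2
  have h4 : ((Ideal.absNorm P : ℝ)) ^ finrank K L ≤ |((Algebra.norm ℤ z : ℤ) : ℝ)| := by
    exact_mod_cast h2
  have h5 : (0 : ℝ) < Ideal.absNorm P := by
    exact_mod_cast Nat.pos_of_ne_zero (fun h => hP (Ideal.absNorm_eq_zero_iff.mp h))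
  rw [← Real.log_pow]
  exact Real.log_le_log (by positivity) h4

/-- the logarithm of the absolute norm of `m_i (x_j)` -/
def rho (f : (𝓞 K)[X]) (x : 𝓞 L) (i j : ℕ) : ℝ := lam (aeval (xs f x j) (mp f x i))

lemma rho_step {f : (𝓞 K)[X]} {x : 𝓞 L} (hinj : Function.Injective (xs f x)) {i j : ℕ}
    (hij : i ≠ j) {c : (𝓞 K)[X]} (hc : (mp f x (i + 1)).comp f = mp f x i * c) :
    aeval (xs f x j) c ≠ 0 ∧
      rho f x (i + 1) (j + 1) = rho f x i j + lam (aeval (xs f x j) c) := by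
  have h1 : aeval (xs f x (j + 1)) (mp f x (i + 1)) =
      aeval (xs f x j) (mp f x i) * aeval (xs f x j) c := by
    rw [xs_succ, ← aeval_comp, hc, map_mul]
  have h2 : aeval (xs f x (j + 1)) (mp f x (i + 1)) ≠ 0 := aeval_ne_zero hinj (by omega)
  have h3 : aeval (xs f x j) c ≠ 0 := by
    intro h
    rw [h1, h, mul_zero] at h2
    exact h2 rfl
  refine ⟨h3, ?_⟩
  unfold rho
  rw [h1, lam_mul (aeval_ne_zero hinj hij) h3]

lemma rho_mono {f : (𝓞 K)[X]} {x : 𝓞 L} (hinj : Function.Injective (xs f x)) {i j : ℕ}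
    (hij : i ≠ j) : rho f x i j ≤ rho f x (i + 1) (j + 1) := by
  obtain ⟨c, hc⟩ := mp_dvd_comp f x i
  obtain ⟨h1, h2⟩ := rho_step hinj hij hc
  rw [h2]
  linarith [lam_nonneg h1]

section Reduction

variable {P : Ideal (𝓞 K)}

lemma aeval_mem_of_map_eq_zero {g : (𝓞 K)[X]} (hg : g.map (Ideal.Quotient.mk P) = 0)
    (z : 𝓞 L) : aeval z g ∈ P.map (algebraMap (𝓞 K) (𝓞 L)) := by
  rw [aeval_eq_sum_range]
  refine Ideal.sum_mem _ fun i _ => ?_
  rw [Algebra.smul_def]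
  apply Ideal.mul_mem_right
  apply Ideal.mem_map_of_mem
  rw [← Ideal.Quotient.eq_zero_iff_mem, ← coeff_map, hg, coeff_zero]

variable [hP : P.IsMaximal]

/-- the hypothesis that `f` reduces to a power of the Frobenius of the residue field -/
def FrobRed (P : Ideal (𝓞 K)) (f : (𝓞 K)[X]) : Prop :=
  ∃ k : ℕ, f.natDegree = Ideal.absNorm P ^ k ∧
    f.map (Ideal.Quotient.mk P) = X ^ (Ideal.absNorm P ^ k)

lemma map_comp_eq {f : (𝓞 K)[X]} (hP0 : P ≠ ⊥) (hf : FrobRed P f) (g : (𝓞 K)[X]) :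
    (g.comp f).map (Ideal.Quotient.mk P) = (g.map (Ideal.Quotient.mk P)) ^ f.natDegree := by
  obtain ⟨k, hk, hk'⟩ := hf
  let : Field (𝓞 K ⧸ P) := Ideal.Quotient.field P
  have hfin : Finite (𝓞 K ⧸ P) := Ideal.finiteQuotientOfFreeOfNeBot P hP0
  let : Fintype (𝓞 K ⧸ P) := Fintype.ofFinite _
  have hcard : Ideal.absNorm P = Fintype.card (𝓞 K ⧸ P) := by
    rw [Ideal.absNorm_apply, Submodule.cardQuot_apply, Nat.card_eq_fintype_card]
  rw [Polynomial.map_comp, hk', hk, hcard]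
  exact comp_X_pow_card_pow _ k

lemma aeval_comp_sub_mem {f : (𝓞 K)[X]} (hP0 : P ≠ ⊥) (hf : FrobRed P f) (g : (𝓞 K)[X])
    (z : 𝓞 L) : aeval (aeval z f) g - (aeval z g) ^ f.natDegree ∈
      P.map (algebraMap (𝓞 K) (𝓞 L)) := by
  rw [← aeval_comp, ← map_pow, ← map_sub]
  apply aeval_mem_of_map_eq_zero
  rw [Polynomial.map_sub, map_comp_eq hP0 hf, Polynomial.map_pow, sub_self]

lemma aeval_mp_mem {f : (𝓞 K)[X]} (hP0 : P ≠ ⊥) (hf : FrobRed P f) (hd : 1 ≤ f.natDegree)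
    (x : 𝓞 L) (i h : ℕ) : aeval (xs f x (i + h)) (mp f x i) ∈
      P.map (algebraMap (𝓞 K) (𝓞 L)) := by
  induction h with
  | zero =>
    have : aeval (xs f x (i + 0)) (mp f x i) = 0 := minpoly.aeval _ _
    rw [this]
    exact Ideal.zero_mem _
  | succ h ih =>
    have h1 := aeval_comp_sub_mem hP0 hf (mp f x i) (xs f x (i + h))
    rw [← xs_succ] at h1
    have h2 := Ideal.pow_mem_of_mem _ ih f.natDegree hd
    have h3 := Ideal.add_mem _ h1 h2
    rw [sub_add_cancel] at h3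
    exact h3

lemma rho_base {f : (𝓞 K)[X]} (hP0 : P ≠ ⊥) (hf : FrobRed P f) (hd : 1 ≤ f.natDegree)
    {x : 𝓞 L} (hinj : Function.Injective (xs f x)) {i j : ℕ} (hij : i < j) :
    (finrank K L : ℝ) * Real.log (Ideal.absNorm P) ≤ rho f x i j := by
  obtain ⟨k, rfl⟩ := Nat.exists_eq_add_of_lt hij
  exact lam_ge_of_mem (aeval_ne_zero hinj (by omega)) hP0 (aeval_mp_mem hP0 hf hd x i (k + 1))

lemma rho_stable {f : (𝓞 K)[X]} (hP0 : P ≠ ⊥) (hf : FrobRed P f) (hd : 2 ≤ f.natDegree)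
    {x : 𝓞 L} (hinj : Function.Injective (xs f x)) {i j : ℕ} (hij : i < j)
    (hst : (mp f x (i + 1)).natDegree = (mp f x i).natDegree) :
    rho f x i j + (finrank K L : ℝ) * Real.log (Ideal.absNorm P) ≤ rho f x (i + 1) (j + 1) := by
  obtain ⟨c, hc⟩ := mp_dvd_comp f x i
  obtain ⟨h1, h2⟩ := rho_step hinj hij.ne hc
  rw [h2]
  have h3 : aeval (xs f x j) c ∈ P.map (algebraMap (𝓞 K) (𝓞 L)) := by
    have h4 : (mp f x (i + 1)).map (Ideal.Quotient.mk P) = (mp f x i).map (Ideal.Quotient.mk P) := by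
      obtain ⟨k, hk, hk'⟩ := hf
      let : Field (𝓞 K ⧸ P) := Ideal.Quotient.field P
      have hfin : Finite (𝓞 K ⧸ P) := Ideal.finiteQuotientOfFreeOfNeBot P hP0
      let : Fintype (𝓞 K ⧸ P) := Fintype.ofFinite _
      have hcard : Ideal.absNorm P = Fintype.card (𝓞 K ⧸ P) := by
        rw [Ideal.absNorm_apply, Submodule.cardQuot_apply, Nat.card_eq_fintype_card]
      rw [hcard] at hk'
      refine map_eq_map (π := Ideal.Quotient.mk P) hk' (mp_monic f x i) (mp_monic f x (i + 1))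
        hst fun χ hχ => ?_
      apply minpoly.isIntegrallyClosed_dvd (isInt _)
      rw [xs_succ, ← aeval_comp]
      obtain ⟨g, hg⟩ := hχ
      rw [hg, map_mul, show aeval (xs f x i) (mp f x i) = 0 from minpoly.aeval _ _, zero_mul]
    have h5 : c.map (Ideal.Quotient.mk P) =
        ((mp f x (i + 1)).map (Ideal.Quotient.mk P)) ^ (f.natDegree - 1) := by
      have h6 := map_comp_eq hP0 hf (mp f x (i + 1))
      rw [hc, Polynomial.map_mul, ← h4] at h6
      have h7 : f.natDegree = (f.natDegree - 1) + 1 := by omega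
      conv_rhs at h6 => rw [h7, pow_succ']
      exact ((mp_monic f x (i + 1)).map _).isRegular.left h6
    have h8 : aeval (xs f x j) c - (aeval (xs f x j) (mp f x (i + 1))) ^ (f.natDegree - 1) ∈
        P.map (algebraMap (𝓞 K) (𝓞 L)) := by
      rw [← map_pow, ← map_sub]
      apply aeval_mem_of_map_eq_zero
      rw [Polynomial.map_sub, h5, Polynomial.map_pow, sub_self]
    have h9 : aeval (xs f x j) (mp f x (i + 1)) ∈ P.map (algebraMap (𝓞 K) (𝓞 L)) := by
      obtain ⟨k, rfl⟩ := Nat.exists_eq_add_of_le hij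
      exact aeval_mp_mem hP0 hf (by omega) x (i + 1) k
    have h10 := Ideal.pow_mem_of_mem _ h9 (f.natDegree - 1) (by omega)
    have h11 := Ideal.add_mem _ h8 h10
    rwa [sub_add_cancel] at h11
  linarith [lam_ge_of_mem h1 hP0 h3]

end Reduction

/-- codegree of the field generated by the `n`-th point -/
def cd (f : (𝓞 K)[X]) (x : 𝓞 L) (n : ℕ) : ℕ := finrank K⟮(xs f x n : L)⟯ L

lemma cd_mul (f : (𝓞 K)[X]) (x : 𝓞 L) (n : ℕ) :
    (mp f x n).natDegree * cd f x n = finrank K L := by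
  have h1 : finrank K K⟮(xs f x n : L)⟯ = (mp f x n).natDegree := by
    rw [IntermediateField.adjoin.finrank (Algebra.IsIntegral.isIntegral _),
      natDegree_minpoly_coe]
    rfl
  rw [← h1]
  exact finrank_mul_finrank K K⟮(xs f x n : L)⟯ L

lemma cd_pos (f : (𝓞 K)[X]) (x : 𝓞 L) (n : ℕ) : 0 < cd f x n := by
  have h1 := cd_mul f x n
  have h2 : 0 < finrank K L := finrank_pos
  by_contra h
  have h3 : cd f x n = 0 := by omega
  rw [h3, mul_zero] at h1
  omega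

lemma aeval_xs_eq (f : (𝓞 K)[X]) (x : 𝓞 L) (i : ℕ) (φ : L →ₐ[ℚ] ℂ) (z : 𝓞 L) :
    φ ((aeval z (mp f x i) : 𝓞 L) : L) =
      ∏ y ∈ cjt (res (K := K) φ) (xs f x i : L), (φ (z : L) - y) := by
  rw [map_aeval, mp, pol_minpoly, eval_prod]
  simp

/-- cross energy -/
def cross (f : (𝓞 K)[X]) (x : 𝓞 L) (τ : K →ₐ[ℚ] ℂ) (i j : ℕ) : ℝ :=
  ∑ y ∈ cjt τ (xs f x j : L), ∑ w ∈ cjt τ (xs f x i : L), Real.log ‖y - w‖

lemma cross_comm (f : (𝓞 K)[X]) (x : 𝓞 L) (τ : K →ₐ[ℚ] ℂ) (i j : ℕ) :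
    cross f x τ i j = cross f x τ j i := by
  unfold cross
  rw [Finset.sum_comm]
  simp_rw [norm_sub_rev]

lemma rho_eq {f : (𝓞 K)[X]} {x : 𝓞 L} (hinj : Function.Injective (xs f x)) {i j : ℕ}
    (hij : i ≠ j) : rho f x i j = cd f x j * ∑ τ : K →ₐ[ℚ] ℂ, cross f x τ i j := by
  have h1 := sum_all (K := K) (xs f x j : L)
    (fun τ y => ∑ w ∈ cjt τ (xs f x i : L), Real.log ‖y - w‖)
  unfold rho lam cross cd
  rw [← h1]
  refine Finset.sum_congr rfl fun φ _ => ?_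
  rw [aeval_xs_eq, norm_prod, Real.log_prod]
  intro y hy
  rw [norm_ne_zero_iff]
  intro h
  have h2 : φ ((aeval (xs f x j) (mp f x i) : 𝓞 L) : L) = 0 := by
    rw [aeval_xs_eq]
    exact Finset.prod_eq_zero hy h
  rw [map_eq_zero] at h2
  exact aeval_ne_zero hinj hij (RingOfIntegers.coe_eq_zero_iff.mp h2)

lemma rho_symm {f : (𝓞 K)[X]} {x : 𝓞 L} (hinj : Function.Injective (xs f x)) {i j : ℕ}
    (hij : i ≠ j) : cd f x i * rho f x i j = cd f x j * rho f x j i := by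
  rw [rho_eq hinj hij, rho_eq hinj hij.symm]
  simp_rw [cross_comm f x _ i j]
  ring

end

end Pool.Agent.H420R2
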