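import Mathlib

/-!
The asymptotic choice of the parameters.
-/

set_option autoImplicit false

namespace Pool.Agent.H420R2

open Filter Topology

lemma poly_bound {c ε : ℝ} (hc : 0 ≤ c) (hε : 0 < ε) (k : ℕ) (hk : 1 ≤ k) :
    c * (k : ℝ) ^ 7 ≤ ε * ((k : ℝ) - 1) ^ 8 + (c + c * (256 * c / ε) ^ 7) := by
  have hk' : (1 : ℝ) ≤ k := by exact_mod_cast hk
  have h0 : 0 ≤ c * (256 * c / ε) ^ 7 := by positivity
  rcases Nat.eq_or_lt_of_le hk with h | h
  · rw [← h]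
    norm_num
    linarith
  · have h2 : (2 : ℝ) ≤ k := by exact_mod_cast h
    have h3 : (k : ℝ) / 2 ≤ k - 1 := by linarith
    have h4 : ((k : ℝ) / 2) ^ 8 ≤ ((k : ℝ) - 1) ^ 8 := by
      gcongr
    have h5 : ((k : ℝ) / 2) ^ 8 = k ^ 8 / 256 := by
      rw [div_pow]
      norm_num
    rw [h5] at h4
    have h6 : ε * ((k : ℝ) ^ 8 / 256) ≤ ε * ((k : ℝ) - 1) ^ 8 := by gcongr
    by_cases h7 : (k : ℝ) ≤ 256 * c / ε
    · have h8 : c * (k : ℝ) ^ 7 ≤ c * (256 * c / ε) ^ 7 := by gcongr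
      have h9 : 0 ≤ ε * ((k : ℝ) ^ 8 / 256) := by positivity
      linarith
    · push Not at h7
      have h8 : c ≤ ε * k / 256 := by
        rw [div_lt_iff₀ hε] at h7
        linarith
      have h9 : c * (k : ℝ) ^ 7 ≤ (ε * k / 256) * (k : ℝ) ^ 7 := by gcongr
      have h10 : (ε * k / 256) * (k : ℝ) ^ 7 = ε * ((k : ℝ) ^ 8 / 256) := by ring
      linarith

lemma asym {ell A ε : ℝ} {q : ℕ} (hl : 0 < ell) (hA : 0 ≤ A) (hε : 0 < ε) (hq : 1 ≤ q) :
    ∃ C : ℝ, 0 < C ∧ ∀ n : ℕ, 1 ≤ n → ∃ M k₀ : ℕ, 1 ≤ M ∧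
      2 * A * (1 + Real.log M + Real.log n) + 1 ≤ M * (M - 1) * ell ∧
      (q + 1) * (A * (1 + Real.log (2 * n)) + 1) ≤ 2 ^ k₀ * ell ∧
      (1 + q) * (2 * M) * (q : ℝ) ^ (2 * M * (k₀ + 1)) ≤ C * (n : ℝ) ^ ε := by
  have hq' : (1 : ℝ) ≤ q := by exact_mod_cast hq
  -- eventual inequalities
  have hb : ∀ᶠ k : ℕ in atTop, ((q : ℝ) + 1) * (3 * A + 1) * (k : ℝ) ^ 8 ≤ 2 ^ k * ell := by
    have h1 := tendsto_pow_const_div_const_pow_of_one_lt 8 (r := 2) (by norm_num)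
    have h2 : (0 : ℝ) < ell / ((q + 1) * (3 * A + 1)) := by positivity
    filter_upwards [h1.eventually (gt_mem_nhds h2)] with k hk
    rw [div_lt_div_iff₀ (by positivity) (by positivity)] at hk
    linarith
  have ha : ∀ᶠ k : ℕ in atTop, 2 * (6 * A + 1) / ell ≤ (k : ℝ) :=
    tendsto_natCast_atTop_atTop.eventually_ge_atTop _
  obtain ⟨k₁, hk₁⟩ := ((hb.and ha).and (eventually_ge_atTop 2)).exists_forall_of_atTop
  set c : ℝ := 2 * (1 + q) + 4 * q with hc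
  have hc0 : 0 ≤ c := by positivity
  set F : ℕ → ℝ := fun k => (1 + q) * (2 * (k : ℝ) ^ 6) * (q : ℝ) ^ (2 * k ^ 6 * (k + 1)) with hF
  have hFle : ∀ k : ℕ, 1 ≤ k → F k ≤ Real.exp (c * k ^ 7) := by
    intro k hk
    have hk' : (1 : ℝ) ≤ k := by exact_mod_cast hk
    have h1 : (1 + q) * (2 * (k : ℝ) ^ 6) ≤ Real.exp ((1 + q) * (2 * (k : ℝ) ^ 6)) := by
      have := Real.add_one_le_exp ((1 + q) * (2 * (k : ℝ) ^ 6))
      linarith
    have h2 : (q : ℝ) ^ (2 * k ^ 6 * (k + 1)) ≤ Real.exp (q * (2 * k ^ 6 * (k + 1))) := by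
      have h3 : (q : ℝ) ≤ Real.exp q := by
        have := Real.add_one_le_exp (q : ℝ)
        linarith
      calc (q : ℝ) ^ (2 * k ^ 6 * (k + 1)) ≤ (Real.exp q) ^ (2 * k ^ 6 * (k + 1)) := by gcongr
        _ = Real.exp (q * (2 * k ^ 6 * (k + 1))) := by
            rw [← Real.exp_nat_mul]
            congr 1
            push_cast
            ring
    calc F k ≤ Real.exp ((1 + q) * (2 * (k : ℝ) ^ 6)) * Real.exp (q * (2 * k ^ 6 * (k + 1))) := by
          simp only [hF]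
          gcongr
      _ = Real.exp ((1 + q) * (2 * (k : ℝ) ^ 6) + q * (2 * k ^ 6 * (k + 1))) := by
          rw [Real.exp_add]
      _ ≤ Real.exp (c * k ^ 7) := by
          rw [Real.exp_le_exp]
          have h3 : (k : ℝ) ^ 6 ≤ k ^ 7 := pow_le_pow_right₀ hk' (by norm_num)
          have h4 : (k : ℝ) ^ 6 * (k + 1) ≤ 2 * k ^ 7 := by
            have : (k : ℝ) ^ 6 * (k + 1) = k ^ 7 + k ^ 6 := by ring
            linarith
          have h5 : (1 + (q : ℝ)) * (2 * (k : ℝ) ^ 6) ≤ (1 + q) * (2 * k ^ 7) := by gcongr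
          have h6 : (q : ℝ) * (2 * k ^ 6 * (k + 1)) ≤ q * (4 * k ^ 7) := by
            have : (2 : ℝ) * k ^ 6 * (k + 1) ≤ 4 * k ^ 7 := by linarith
            gcongr
          rw [hc]
          linarith
  set C₁ : ℝ := Real.exp (c + c * (256 * c / ε) ^ 7) with hC₁
  refine ⟨max C₁ (F k₁), lt_max_of_lt_left (Real.exp_pos _), fun n hn => ?_⟩
  have hn' : (1 : ℝ) ≤ n := by exact_mod_cast hn
  set t : ℝ := Real.log n with ht
  have ht0 : 0 ≤ t := Real.log_nonneg hn'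
  set k₂ : ℕ := ⌈t ^ (1 / 8 : ℝ)⌉₊ with hk₂
  set k : ℕ := max k₁ k₂ with hk
  have hkk := hk₁ k (le_max_left _ _)
  obtain ⟨⟨hkb, hka⟩, hk2⟩ := hkk
  have hk2' : (2 : ℝ) ≤ k := by exact_mod_cast hk2
  have htk : t ≤ (k : ℝ) ^ 8 := by
    have h1 : t ^ (1 / 8 : ℝ) ≤ k := by
      refine (Nat.le_ceil _).trans ?_
      exact_mod_cast le_max_right k₁ k₂
    calc t = (t ^ (1 / 8 : ℝ)) ^ 8 := by
          rw [← Real.rpow_natCast, ← Real.rpow_mul ht0]
          norm_num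
      _ ≤ (k : ℝ) ^ 8 := by gcongr
  have hk68 : (k : ℝ) ^ 6 ≤ k ^ 8 := pow_le_pow_right₀ (by linarith) (by norm_num)
  have hk18 : (1 : ℝ) ≤ k ^ 8 := one_le_pow₀ (by linarith)
  refine ⟨k ^ 6, k, Nat.one_le_pow _ _ (by omega), ?_, ?_, ?_⟩
  · push_cast
    have h1 : Real.log ((k : ℝ) ^ 6) ≤ (k : ℝ) ^ 6 := by
      have := Real.log_le_sub_one_of_pos (x := (k : ℝ) ^ 6) (by positivity)
      linarith
    have h2 : 2 * A * (1 + Real.log ((k : ℝ) ^ 6) + t) + 1 ≤ (6 * A + 1) * k ^ 8 := by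
      have h3 : 2 * A * (1 + Real.log ((k : ℝ) ^ 6) + t) ≤ 2 * A * (3 * k ^ 8) := by
        gcongr
        linarith
      nlinarith
    have h3 : (k : ℝ) ^ 6 / 2 ≤ k ^ 6 - 1 := by
      have : (2 : ℝ) ^ 6 ≤ k ^ 6 := by gcongr
      norm_num at this
      linarith
    have h4 : (6 * A + 1) * (k : ℝ) ^ 8 ≤ (k : ℝ) ^ 6 * (k ^ 6 / 2) * ell := by
      rw [div_le_iff₀ hl] at hka
      have h5 : (k : ℝ) ≤ k ^ 4 := le_self_pow₀ (by linarith) (by norm_num)
      have h6 : (6 * A + 1) ≤ (k : ℝ) ^ 4 * ell / 2 := by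
        have : (k : ℝ) * ell ≤ k ^ 4 * ell := by gcongr
        linarith
      calc (6 * A + 1) * (k : ℝ) ^ 8 ≤ ((k : ℝ) ^ 4 * ell / 2) * k ^ 8 := by gcongr
        _ = (k : ℝ) ^ 6 * (k ^ 6 / 2) * ell := by ring
    have h5 : (k : ℝ) ^ 6 * (k ^ 6 / 2) * ell ≤ (k : ℝ) ^ 6 * (k ^ 6 - 1) * ell := by gcongr
    linarith
  · have h1 : Real.log (2 * n) = Real.log 2 + t := Real.log_mul (by norm_num) (by linarith)
    have h2 : Real.log 2 ≤ 1 := by
      have := Real.log_le_sub_one_of_pos (x := 2) (by norm_num)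
      linarith
    refine le_trans ?_ hkb
    rw [h1, mul_assoc]
    have h3 : A * (1 + (Real.log 2 + t)) ≤ A * (3 * k ^ 8) := by
      gcongr
      linarith
    have h4 : A * (1 + (Real.log 2 + t)) + 1 ≤ (3 * A + 1) * k ^ 8 := by nlinarith
    gcongr
  · have hnε : (n : ℝ) ^ ε = Real.exp (ε * t) := by
      rw [Real.rpow_def_of_pos (by linarith), mul_comm]
    push_cast
    change F k ≤ _
    rcases le_total k₂ k₁ with h | h
    · have h1 : k = k₁ := max_eq_left h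
      rw [h1]
      have h2 : (1 : ℝ) ≤ (n : ℝ) ^ ε := Real.one_le_rpow hn' hε.le
      have h3 : F k₁ ≤ max C₁ (F k₁) := le_max_right _ _
      have h4 : 0 < max C₁ (F k₁) := lt_max_of_lt_left (Real.exp_pos _)
      nlinarith
    · have h1 : k = k₂ := max_eq_right h
      have hk1 : 1 ≤ k := by omega
      have h2 : ((k : ℝ) - 1) ^ 8 ≤ t := by
        have h3 : (k : ℝ) - 1 ≤ t ^ (1 / 8 : ℝ) := by
          have h4 := Nat.ceil_lt_add_one (Real.rpow_nonneg ht0 (1 / 8 : ℝ))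
          rw [← hk₂, ← h1] at h4
          linarith
        calc ((k : ℝ) - 1) ^ 8 ≤ (t ^ (1 / 8 : ℝ)) ^ 8 := by
              have : 0 ≤ (k : ℝ) - 1 := by linarith
              gcongr
          _ = t := by
              rw [← Real.rpow_natCast, ← Real.rpow_mul ht0]
              norm_num
      have h5 := poly_bound hc0 hε k hk1
      calc F k ≤ Real.exp (c * k ^ 7) := hFle k hk1
        _ ≤ Real.exp (ε * t + (c + c * (256 * c / ε) ^ 7)) := by
            rw [Real.exp_le_exp]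
            have : ε * ((k : ℝ) - 1) ^ 8 ≤ ε * t := by gcongr
            linarith
        _ = C₁ * (n : ℝ) ^ ε := by
            rw [hnε, Real.exp_add, mul_comm]
        _ ≤ max C₁ (F k₁) * (n : ℝ) ^ ε := by
            gcongr
            exact le_max_left _ _

end Pool.Agent.H420R2
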