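import Mathlib

/-!
Combinatorics of the degree sequence.
-/

set_option autoImplicit false

namespace Pool.Agent.H420R2

noncomputable section

section Growth

variable {D : ℕ → ℕ} {n q : ℕ} {κ : ℝ}

/-- number of stable steps before `i` -/
def stab (D : ℕ → ℕ) (i : ℕ) : Finset ℕ := (Finset.range i).filter fun s => D (s + 1) = D s

/-- stable steps followed by a drop -/
def sdr (D : ℕ → ℕ) (i : ℕ) : Finset ℕ :=
  (Finset.range i).filter fun s => D (s + 1) = D s ∧ D (s + 2) ≠ D (s + 1)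

lemma stab_succ_of {i : ℕ} (h : D (i + 1) = D i) : (stab D (i + 1)).card = (stab D i).card + 1 := by
  unfold stab
  rw [Finset.range_add_one, Finset.filter_insert, if_pos h, Finset.card_insert_of_notMem]
  simp

lemma stab_succ_of_not {i : ℕ} (h : D (i + 1) ≠ D i) :
    (stab D (i + 1)).card = (stab D i).card := by
  unfold stab
  rw [Finset.range_add_one, Finset.filter_insert, if_neg h]

/-- the exponent -/
def kexp (q n : ℕ) : ℝ := max 1 (Real.log q / Real.log n.minFac)

lemma one_le_kexp (q n : ℕ) : 1 ≤ kexp q n := le_max_left _ _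

lemma le_rpow_kexp {e : ℕ} (hq : 1 ≤ q) (he : 2 ≤ e) (hen : e ∣ n) :
    (q : ℝ) ≤ (e : ℝ) ^ kexp q n := by
  have h1 : n.minFac ≤ e := Nat.minFac_le_of_dvd he hen
  have hn1 : n ≠ 1 := by
    rintro rfl
    have := Nat.dvd_one.mp hen
    omega
  have h2 : 2 ≤ n.minFac := (Nat.minFac_prime hn1).two_le
  have h2' : (2 : ℝ) ≤ n.minFac := by exact_mod_cast h2
  have h3 : 0 < Real.log n.minFac := Real.log_pos (by linarith)
  have hq' : (1 : ℝ) ≤ q := by exact_mod_cast hq
  calc (q : ℝ) = (n.minFac : ℝ) ^ (Real.log q / Real.log n.minFac) := by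
        rw [Real.rpow_def_of_pos (by linarith), mul_div_cancel₀ _ h3.ne',
          Real.exp_log (by linarith)]
    _ ≤ (n.minFac : ℝ) ^ kexp q n :=
        Real.rpow_le_rpow_of_exponent_le (by linarith) (le_max_right _ _)
    _ ≤ (e : ℝ) ^ kexp q n := by
        apply Real.rpow_le_rpow (by linarith) (by exact_mod_cast h1)
        linarith [one_le_kexp q n]

/-- all but at most `b` of the steps are stable or have a large drop -/
def Steps (D : ℕ → ℕ) (q : ℕ) (κ : ℝ) (b : ℕ) : Prop :=
  1 ≤ κ ∧ ∃ B : Finset ℕ, B.card ≤ b ∧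
    ∀ i, i ∉ B → D (i + 1) = D i ∨ (q : ℝ) * (D (i + 1) : ℝ) ^ κ ≤ (D i : ℝ) ^ κ

lemma steps_kexp (hq : 1 ≤ q) (hpos : ∀ i, 0 < D i) (hdvd : ∀ i, D (i + 1) ∣ D i)
    (hn : D 0 ∣ n) : Steps D q (kexp q n) 0 := by
  refine ⟨one_le_kexp q n, ∅, by simp, fun i _ => ?_⟩
  have hdn : ∀ i, D i ∣ n := by
    intro i
    induction i with
    | zero => exact hn
    | succ i ih => exact (hdvd i).trans ih
  by_cases hs : D (i + 1) = D i
  · exact Or.inl hs
  right
  obtain ⟨e, he⟩ := hdvd i
  have he1 : e ≠ 0 := by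
    rintro rfl
    have := hpos i
    omega
  have he2 : e ≠ 1 := by
    rintro rfl
    omega
  have he3 : 2 ≤ e := by omega
  have hen : e ∣ n := (Dvd.intro_left _ he.symm).trans (hdn i)
  have h3 := le_rpow_kexp (q := q) (n := n) hq he3 hen
  have hDi : (D i : ℝ) = D (i + 1) * e := by exact_mod_cast he
  rw [hDi, Real.mul_rpow (by positivity) (by positivity), mul_comm]
  gcongr

lemma growth {b : ℕ} (hq : 1 ≤ q) (hpos : ∀ i, 0 < D i) (hdvd : ∀ i, D (i + 1) ∣ D i)
    (hst : Steps D q κ b) (i : ℕ) :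
    (q : ℝ) ^ i * D i ≤
      (q : ℝ) ^ ((stab D i).card + b) * ((D 0 : ℝ) / D i) ^ (κ - 1) * D 0 := by
  obtain ⟨hk, B, hB, hstep⟩ := hst
  have hq' : (1 : ℝ) ≤ q := by exact_mod_cast hq
  suffices h : (q : ℝ) ^ i * D i ≤ (q : ℝ) ^ ((stab D i).card + (B ∩ Finset.range i).card) *
      ((D 0 : ℝ) / D i) ^ (κ - 1) * D 0 by
    refine h.trans ?_
    gcongr
    exact (Finset.card_le_card Finset.inter_subset_left).trans hB
  induction i with
  | zero =>
    have h0 : (0 : ℝ) < D 0 := by exact_mod_cast hpos 0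
    simp [stab, div_self h0.ne']
  | succ i ih =>
    have h0 : (0 : ℝ) < D 0 := by exact_mod_cast hpos 0
    have h1 : (0 : ℝ) < D i := by exact_mod_cast hpos i
    have h2 : (0 : ℝ) < D (i + 1) := by exact_mod_cast hpos (i + 1)
    have hBm : (B ∩ Finset.range i).card ≤ (B ∩ Finset.range (i + 1)).card := by
      apply Finset.card_le_card
      exact Finset.inter_subset_inter_left (Finset.range_subset_range.mpr (by omega))
    by_cases hs : D (i + 1) = D i
    · rw [stab_succ_of hs, hs, pow_succ]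
      calc (q : ℝ) ^ i * q * D i = q * ((q : ℝ) ^ i * D i) := by ring
        _ ≤ q * ((q : ℝ) ^ ((stab D i).card + (B ∩ Finset.range i).card) *
            ((D 0 : ℝ) / D i) ^ (κ - 1) * D 0) := by gcongr
        _ ≤ q * ((q : ℝ) ^ ((stab D i).card + (B ∩ Finset.range (i + 1)).card) *
            ((D 0 : ℝ) / D i) ^ (κ - 1) * D 0) := by gcongr
        _ = _ := by ring
    · rw [stab_succ_of_not hs]
      have hle : (D (i + 1) : ℝ) ≤ D i := by exact_mod_cast Nat.le_of_dvd (hpos i) (hdvd i)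
      by_cases hi : i ∈ B
      · have hBe : (B ∩ Finset.range (i + 1)).card = (B ∩ Finset.range i).card + 1 := by
          rw [Finset.range_add_one, Finset.inter_insert_of_mem hi, Finset.card_insert_of_notMem]
          simp
        rw [hBe, pow_succ]
        calc (q : ℝ) ^ i * q * D (i + 1) ≤ (q : ℝ) ^ i * q * D i := by gcongr
          _ = q * ((q : ℝ) ^ i * D i) := by ring
          _ ≤ q * ((q : ℝ) ^ ((stab D i).card + (B ∩ Finset.range i).card) *
              ((D 0 : ℝ) / D i) ^ (κ - 1) * D 0) := by gcongr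
          _ ≤ q * ((q : ℝ) ^ ((stab D i).card + (B ∩ Finset.range i).card) *
              ((D 0 : ℝ) / D (i + 1)) ^ (κ - 1) * D 0) := by
              gcongr
          _ = _ := by ring
      · have h3 := (hstep i hi).resolve_left hs
        have h4 : (D 0 : ℝ) / D (i + 1) = (D 0 : ℝ) / D i * (D i / D (i + 1)) := by
          field_simp
        have h5 : (q : ℝ) * (D (i + 1) : ℝ) / D i ≤ ((D i : ℝ) / D (i + 1)) ^ (κ - 1) := by
          rw [Real.rpow_sub (by positivity), Real.rpow_one, Real.div_rpow h1.le h2.le,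
            div_div_eq_mul_div]
          have h6 : (0 : ℝ) < (D (i + 1) : ℝ) ^ κ := by positivity
          have h7 : (q : ℝ) ≤ (D i : ℝ) ^ κ / (D (i + 1) : ℝ) ^ κ := by
            rw [le_div_iff₀ h6]
            exact h3
          gcongr
        rw [h4, Real.mul_rpow (by positivity) (by positivity)]
        calc (q : ℝ) ^ (i + 1) * D (i + 1) = ((q : ℝ) * (D (i + 1) : ℝ) / D i) *
              ((q : ℝ) ^ i * D i) := by
              rw [pow_succ]
              field_simp
          _ ≤ ((D i : ℝ) / D (i + 1)) ^ (κ - 1) *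
              ((q : ℝ) ^ ((stab D i).card + (B ∩ Finset.range i).card) *
                ((D 0 : ℝ) / D i) ^ (κ - 1) * D 0) := by
              apply mul_le_mul h5 ih (by positivity) (by positivity)
          _ ≤ ((D i : ℝ) / D (i + 1)) ^ (κ - 1) *
              ((q : ℝ) ^ ((stab D i).card + (B ∩ Finset.range (i + 1)).card) *
                ((D 0 : ℝ) / D i) ^ (κ - 1) * D 0) := by
              gcongr
          _ = _ := by ring

end Growth

section Select

variable {D : ℕ → ℕ}

lemma exists_run (hpos : ∀ i, 0 < D i) (hdvd : ∀ i, D (i + 1) ∣ D i) (N : ℕ) :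
    ∃ i, ∀ t < N, D (i + t + 1) = D (i + t) := by
  by_contra h
  push Not at h
  have hle : ∀ i, D (i + 1) ≤ D i := fun i => Nat.le_of_dvd (hpos i) (hdvd i)
  have hanti : Antitone D := antitone_nat_of_succ_le hle
  have hN : ∀ i, D (i + N) + 1 ≤ D i := by
    intro i
    obtain ⟨t, ht, ht'⟩ := h i
    have h1 : D (i + t + 1) < D (i + t) := lt_of_le_of_ne (hle _) ht'
    have h2 : D (i + N) ≤ D (i + t + 1) := hanti (by omega)
    have h3 : D (i + t) ≤ D i := hanti (by omega)
    omega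
  have h4 : ∀ k, D (k * N) + k ≤ D 0 := by
    intro k
    induction k with
    | zero => simp
    | succ k ih =>
      have := hN (k * N)
      rw [add_mul, one_mul]
      omega
  have := h4 (D 0 + 1)
  omega

lemma card_stab_le {N b : ℕ} (hb : ∀ i < b, D (i + 1) = D i →
    ∃ s, i ≤ s ∧ s < i + N ∧ s < b ∧ D (s + 1) = D s ∧ D (s + 2) ≠ D (s + 1)) :
    (stab D b).card ≤ N * (sdr D b).card := by
  have h1 : stab D b ⊆ (sdr D b).biUnion fun s => Finset.Ioc (s - N) s ∪ {s} ∪
      (Finset.Icc (s + 1 - N) s) := by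
    intro i hi
    rw [stab, Finset.mem_filter, Finset.mem_range] at hi
    obtain ⟨s, h1, h2, h3, h4, h5⟩ := hb i hi.1 hi.2
    rw [Finset.mem_biUnion]
    refine ⟨s, ?_, ?_⟩
    · rw [sdr, Finset.mem_filter, Finset.mem_range]
      exact ⟨h3, h4, h5⟩
    · rw [Finset.mem_union]
      right
      rw [Finset.mem_Icc]
      omega
  have h2 : stab D b ⊆ (sdr D b).biUnion fun s => Finset.Icc (s + 1 - N) s := by
    intro i hi
    rw [stab, Finset.mem_filter, Finset.mem_range] at hi
    obtain ⟨s, h1, h2, h3, h4, h5⟩ := hb i hi.1 hi.2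
    rw [Finset.mem_biUnion]
    refine ⟨s, ?_, ?_⟩
    · rw [sdr, Finset.mem_filter, Finset.mem_range]
      exact ⟨h3, h4, h5⟩
    · rw [Finset.mem_Icc]
      omega
  refine (Finset.card_le_card h2).trans ?_
  refine (Finset.card_biUnion_le_card_mul _ _ N fun s _ => ?_).trans (by rw [mul_comm])
  rw [Nat.card_Icc]
  omega

lemma sdr_succ_le (i : ℕ) : (sdr D (i + 1)).card ≤ (sdr D i).card + 1 := by
  unfold sdr
  rw [Finset.range_add_one, Finset.filter_insert]
  split_ifs
  · exact Finset.card_insert_le _ _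
  · omega

lemma sdr_succ_eq {i : ℕ} (h : ¬ (D (i + 1) = D i ∧ D (i + 2) ≠ D (i + 1))) :
    sdr D (i + 1) = sdr D i := by
  unfold sdr
  rw [Finset.range_add_one, Finset.filter_insert, if_neg h]

lemma two_pow_le {r : ℕ → ℝ} {r₀ : ℝ} (h0 : r₀ ≤ r 0) (hr0 : 0 ≤ r₀)
    (hmono : ∀ i, r i ≤ r (i + 1))
    (hdouble : ∀ i, D (i + 1) = D i → D (i + 2) ≠ D (i + 1) → 2 * r i ≤ r (i + 1)) (i : ℕ) :
    2 ^ (sdr D i).card * r₀ ≤ r i := by
  induction i with
  | zero => simpa [sdr] using h0
  | succ i ih =>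
    by_cases h : D (i + 1) = D i ∧ D (i + 2) ≠ D (i + 1)
    · calc (2 : ℝ) ^ (sdr D (i + 1)).card * r₀ ≤ 2 ^ ((sdr D i).card + 1) * r₀ := by
            gcongr
            · norm_num
            · exact sdr_succ_le i
        _ = 2 * (2 ^ (sdr D i).card * r₀) := by ring
        _ ≤ 2 * r i := by linarith
        _ ≤ r (i + 1) := hdouble i h.1 h.2
    · rw [sdr_succ_eq h]
      exact ih.trans (hmono i)

/-- the selection lemma -/
lemma select (hpos : ∀ i, 0 < D i) (hdvd : ∀ i, D (i + 1) ∣ D i) {N k₀ : ℕ}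
    {r : ℕ → ℝ} {r₀ : ℝ} (h0 : r₀ ≤ r 0) (hr0 : 0 ≤ r₀)
    (hmono : ∀ i, r i ≤ r (i + 1))
    (hdouble : ∀ i, D (i + 1) = D i → D (i + 2) ≠ D (i + 1) → 2 * r i ≤ r (i + 1)) :
    ∃ i, ((∀ t < N, D (i + t + 1) = D (i + t)) ∨ 2 ^ k₀ * r₀ ≤ r i) ∧
      (stab D i).card ≤ N * k₀ := by
  classical
  have hrun := exists_run hpos hdvd N
  set ns := Nat.find hrun with hns
  have hP : ∀ t < N, D (ns + t + 1) = D (ns + t) := Nat.find_spec hrun
  -- next drop after a stable step before `ns`
  have hnext : ∀ i < ns, D (i + 1) = D i → ∃ s, i ≤ s ∧ s < i + N ∧ s + 1 < ns ∧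
      (∀ u, i ≤ u → u ≤ s → D (u + 1) = D u) ∧ D (s + 2) ≠ D (s + 1) := by
    intro i hi hst
    have h1 : ¬ ∀ t < N, D (i + t + 1) = D (i + t) := Nat.find_min hrun hi
    push Not at h1
    have h2 : ∃ t, t < N ∧ D (i + t + 1) ≠ D (i + t) := h1
    set t := Nat.find h2 with ht
    have h3 := Nat.find_spec h2
    rw [← ht] at h3
    have h4 : ∀ u < t, D (i + u + 1) = D (i + u) := by
      intro u hu
      have := Nat.find_min h2 hu
      push Not at this
      exact this (by omega)
    have ht0 : t ≠ 0 := by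
      intro h
      rw [h] at h3
      exact h3.2 hst
    obtain ⟨s, hs⟩ : ∃ s, t = s + 1 := ⟨t - 1, by omega⟩
    refine ⟨i + s, by omega, by omega, ?_, ?_, ?_⟩
    · by_contra hcon
      push Not at hcon
      have h5 := hP (i + s + 1 - ns) (by omega)
      have h6 : ns + (i + s + 1 - ns) = i + t := by omega
      rw [h6] at h5
      exact h3.2 h5
    · intro u hu1 hu2
      obtain ⟨v, rfl⟩ := Nat.exists_eq_add_of_le hu1
      exact h4 v (by omega)
    · have := h3.2
      rw [hs] at this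
      exact this
  by_cases hk : (sdr D ns).card ≤ k₀
  · refine ⟨ns, Or.inl hP, ?_⟩
    refine (card_stab_le (N := N) fun i hi hst => ?_).trans (Nat.mul_le_mul_left N hk)
    obtain ⟨s, h1, h2, h3, h4, h5⟩ := hnext i hi hst
    exact ⟨s, h1, h2, by omega, h4 s h1 le_rfl, h5⟩
  · push Not at hk
    have hex : ∃ i, k₀ ≤ (sdr D i).card := ⟨ns, hk.le⟩
    set b := Nat.find hex with hb
    have hb1 : k₀ ≤ (sdr D b).card := Nat.find_spec hex
    have hb2 : b ≤ ns := Nat.find_min' hex hk.le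
    have hb3 : (sdr D b).card ≤ k₀ := by
      rcases Nat.eq_zero_or_pos b with h | h
      · rw [h]
        simp [sdr]
      · obtain ⟨c, hc⟩ : ∃ c, b = c + 1 := ⟨b - 1, by omega⟩
        have h1 : ¬ k₀ ≤ (sdr D c).card := Nat.find_min hex (by omega)
        have h2 := sdr_succ_le (D := D) c
        rw [hc]
        omega
    have hb4 : ∀ c, b = c + 1 → D (c + 1) = D c ∧ D (c + 2) ≠ D (c + 1) := by
      intro c hc
      have h1 : ¬ k₀ ≤ (sdr D c).card := Nat.find_min hex (by omega)
      by_contra h2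
      have h3 := sdr_succ_eq h2
      rw [← hc] at h3
      rw [h3] at hb1
      exact h1 hb1
    refine ⟨b, Or.inr ?_, ?_⟩
    · have h1 := two_pow_le h0 hr0 hmono hdouble b
      have h2 : (sdr D b).card = k₀ := le_antisymm hb3 hb1
      rwa [h2] at h1
    · refine (card_stab_le (N := N) fun i hi hst => ?_).trans (Nat.mul_le_mul_left N hb3)
      obtain ⟨s, h1, h2, h3, h4, h5⟩ := hnext i (by omega) hst
      refine ⟨s, h1, h2, ?_, h4 s h1 le_rfl, h5⟩
      by_contra hcon
      push Not at hcon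
      obtain ⟨c, hc⟩ : ∃ c, b = c + 1 := ⟨b - 1, by omega⟩
      have h6 := (hb4 c hc).2
      have h7 := h4 (c + 1) (by omega) (by omega)
      exact h6 h7

end Select

end

end Pool.Agent.H420R2
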