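import Mathlib

/-!
Escape rate (Green) function of a monic complex polynomial.
-/

set_option autoImplicit false

namespace Pool.Agent.H420R2

open Polynomial Filter Topology Real

noncomputable section

/-- sum of the norms of the coefficients plus one -/
def coefSum (f : ℂ[X]) : ℝ := 1 + ∑ i ∈ Finset.range (f.natDegree + 1), ‖f.coeff i‖

lemma one_le_coefSum (f : ℂ[X]) : 1 ≤ coefSum f := by
  unfold coefSum
  have : 0 ≤ ∑ i ∈ Finset.range (f.natDegree + 1), ‖f.coeff i‖ :=
    Finset.sum_nonneg fun _ _ => norm_nonneg _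
  linarith

lemma norm_eval_le (f : ℂ[X]) (z : ℂ) :
    ‖f.eval z‖ ≤ coefSum f * (max 1 ‖z‖) ^ f.natDegree := by
  rw [eval_eq_sum_range]
  refine (norm_sum_le _ _).trans ?_
  have hM : 1 ≤ max 1 ‖z‖ := le_max_left _ _
  have h1 : ∀ i ∈ Finset.range (f.natDegree + 1), ‖f.coeff i * z ^ i‖ ≤
      ‖f.coeff i‖ * (max 1 ‖z‖) ^ f.natDegree := by
    intro i hi
    rw [norm_mul, norm_pow]
    refine mul_le_mul_of_nonneg_left ?_ (norm_nonneg _)
    calc ‖z‖ ^ i ≤ (max 1 ‖z‖) ^ i := by
          gcongr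
          exact le_max_right _ _
      _ ≤ (max 1 ‖z‖) ^ f.natDegree := by
          apply pow_le_pow_right₀ hM
          have := Finset.mem_range.mp hi
          omega
  refine (Finset.sum_le_sum h1).trans ?_
  rw [← Finset.sum_mul]
  have : 0 ≤ (max 1 ‖z‖) ^ f.natDegree := by positivity
  unfold coefSum
  nlinarith

/-- the constant in the quasi-invariance of the height -/
def kap (f : ℂ[X]) : ℝ := f.natDegree * Real.log (2 * coefSum f)

lemma kap_nonneg (f : ℂ[X]) : 0 ≤ kap f := by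
  unfold kap
  have h := one_le_coefSum f
  have : 0 ≤ Real.log (2 * coefSum f) := Real.log_nonneg (by linarith)
  positivity

lemma posLog_eval_le {f : ℂ[X]} (hd : 1 ≤ f.natDegree) (z : ℂ) :
    posLog ‖f.eval z‖ ≤ f.natDegree * posLog ‖z‖ + kap f := by
  have hM : 1 ≤ max 1 ‖z‖ := le_max_left _ _
  have hS := one_le_coefSum f
  have h1 : posLog ‖f.eval z‖ ≤ posLog (coefSum f * (max 1 ‖z‖) ^ f.natDegree) :=
    posLog_le_posLog (norm_nonneg _) (norm_eval_le f z)
  have h2 : posLog (coefSum f * (max 1 ‖z‖) ^ f.natDegree) ≤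
      posLog (coefSum f) + f.natDegree * posLog (max 1 ‖z‖) := by
    refine posLog_mul.trans ?_
    rw [posLog_pow]
  have h3 : posLog (max 1 ‖z‖) = posLog ‖z‖ := by
    rw [posLog_eq_log_max_one (norm_nonneg z), posLog_eq_log]
    rw [abs_of_nonneg (by positivity)]
    exact hM
  have h4 : posLog (coefSum f) ≤ kap f := by
    rw [posLog_eq_log (by rw [abs_of_nonneg (by linarith)]; exact hS)]
    unfold kap
    have h5 : Real.log (coefSum f) ≤ Real.log (2 * coefSum f) :=
      Real.log_le_log (by linarith) (by linarith)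
    have h6 : 0 ≤ Real.log (2 * coefSum f) := Real.log_nonneg (by linarith)
    have h7 : (1 : ℝ) ≤ f.natDegree := by exact_mod_cast hd
    nlinarith
  rw [h3] at h2
  linarith

lemma le_posLog_eval {f : ℂ[X]} (hf : f.Monic) (hd : 1 ≤ f.natDegree) (z : ℂ) :
    f.natDegree * posLog ‖z‖ ≤ posLog ‖f.eval z‖ + kap f := by
  have hS := one_le_coefSum f
  have hq : (0 : ℝ) ≤ f.natDegree := by positivity
  by_cases hz : ‖z‖ ≤ 2 * coefSum f
  · have h1 : posLog ‖z‖ ≤ Real.log (2 * coefSum f) := by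
      rw [posLog_eq_log_max_one (norm_nonneg z)]
      apply Real.log_le_log (by positivity)
      exact max_le (by linarith) hz
    have h2 : 0 ≤ posLog ‖f.eval z‖ := posLog_nonneg
    unfold kap
    nlinarith
  · push Not at hz
    have hz1 : 1 ≤ ‖z‖ := by linarith
    have hz0 : 0 < ‖z‖ := by linarith
    obtain ⟨d, hd'⟩ : ∃ d, f.natDegree = d + 1 := ⟨f.natDegree - 1, by omega⟩
    have h1 : f.eval z = z ^ (d + 1) + ∑ i ∈ Finset.range (d + 1), f.coeff i * z ^ i := by
      rw [eval_eq_sum_range, hd', Finset.sum_range_succ]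
      have : f.coeff (d + 1) = 1 := by rw [← hd']; exact hf
      rw [this]
      ring
    have h2 : ‖∑ i ∈ Finset.range (d + 1), f.coeff i * z ^ i‖ ≤ coefSum f * ‖z‖ ^ d := by
      refine (norm_sum_le _ _).trans ?_
      have h3 : ∀ i ∈ Finset.range (d + 1), ‖f.coeff i * z ^ i‖ ≤ ‖f.coeff i‖ * ‖z‖ ^ d := by
        intro i hi
        rw [norm_mul, norm_pow]
        refine mul_le_mul_of_nonneg_left ?_ (norm_nonneg _)
        apply pow_le_pow_right₀ hz1
        have := Finset.mem_range.mp hi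
        omega
      refine (Finset.sum_le_sum h3).trans ?_
      rw [← Finset.sum_mul]
      refine mul_le_mul_of_nonneg_right ?_ (by positivity)
      unfold coefSum
      rw [hd', Finset.sum_range_succ _ (d + 1)]
      have : 0 ≤ ‖f.coeff (d + 1)‖ := norm_nonneg _
      linarith
    have h3 : ‖z‖ ^ (d + 1) / 2 ≤ ‖f.eval z‖ := by
      have h4 : ‖z ^ (d + 1)‖ - ‖∑ i ∈ Finset.range (d + 1), f.coeff i * z ^ i‖ ≤ ‖f.eval z‖ := by
        rw [h1]
        have := norm_sub_le (z ^ (d + 1) + ∑ i ∈ Finset.range (d + 1), f.coeff i * z ^ i)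
          (∑ i ∈ Finset.range (d + 1), f.coeff i * z ^ i)
        rw [add_sub_cancel_right] at this
        linarith
      rw [norm_pow] at h4
      have h5 : coefSum f * ‖z‖ ^ d ≤ ‖z‖ ^ (d + 1) / 2 := by
        rw [pow_succ]
        have : 0 ≤ ‖z‖ ^ d := by positivity
        nlinarith
      linarith
    have h6 : posLog (‖z‖ ^ (d + 1) / 2) ≤ posLog ‖f.eval z‖ :=
      posLog_le_posLog (by positivity) h3
    have h7 : Real.log (‖z‖ ^ (d + 1) / 2) ≤ posLog (‖z‖ ^ (d + 1) / 2) := by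
      rw [posLog_apply]
      exact le_max_right _ _
    have h8 : Real.log (‖z‖ ^ (d + 1) / 2) = (d + 1 : ℝ) * posLog ‖z‖ - Real.log 2 := by
      rw [Real.log_div (by positivity) (by norm_num), Real.log_pow,
        posLog_eq_log (by rw [abs_of_nonneg hz0.le]; exact hz1)]
      push_cast
      ring
    have h9 : Real.log 2 ≤ kap f := by
      unfold kap
      have h5 : Real.log 2 ≤ Real.log (2 * coefSum f) :=
        Real.log_le_log (by norm_num) (by linarith)
      have h6 : 0 ≤ Real.log (2 * coefSum f) := Real.log_nonneg (by linarith)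
      have h7 : (1 : ℝ) ≤ f.natDegree := by exact_mod_cast hd
      nlinarith
    rw [hd'] at *
    push_cast at *
    linarith

/-- the action of `f` on `ℂ` -/
def act (f : ℂ[X]) (z : ℂ) : ℂ := f.eval z

/-- approximate escape rate -/
def gSeq (f : ℂ[X]) (z : ℂ) (n : ℕ) : ℝ := posLog ‖(act f)^[n] z‖ / (f.natDegree : ℝ) ^ n

lemma abs_gSeq_succ_sub {f : ℂ[X]} (hf : f.Monic) (hd : 2 ≤ f.natDegree) (z : ℂ) (n : ℕ) :
    |gSeq f z n - gSeq f z (n + 1)| ≤ kap f / 2 * (1 / 2) ^ n := by
  have hq : (2 : ℝ) ≤ f.natDegree := by exact_mod_cast hd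
  have hq0 : (0 : ℝ) < f.natDegree := by linarith
  unfold gSeq
  rw [Function.iterate_succ_apply']
  set w := (act f)^[n] z with hw
  have h1 := posLog_eval_le (f := f) (by omega) w
  have h2 := le_posLog_eval hf (by omega) w
  have h3 : posLog ‖w‖ / (f.natDegree : ℝ) ^ n - posLog ‖act f w‖ / (f.natDegree : ℝ) ^ (n + 1) =
      (f.natDegree * posLog ‖w‖ - posLog ‖act f w‖) / (f.natDegree : ℝ) ^ (n + 1) := by
    field_simp
    ring
  rw [h3, abs_div, abs_of_pos (show (0 : ℝ) < (f.natDegree : ℝ) ^ (n + 1) by positivity)]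
  have h4 : |(f.natDegree : ℝ) * posLog ‖w‖ - posLog ‖act f w‖| ≤ kap f := by
    rw [abs_le]
    unfold act
    constructor <;> linarith
  have h5 : (2 : ℝ) ^ (n + 1) ≤ (f.natDegree : ℝ) ^ (n + 1) := by gcongr
  have hk := kap_nonneg f
  calc |(f.natDegree : ℝ) * posLog ‖w‖ - posLog ‖act f w‖| / (f.natDegree : ℝ) ^ (n + 1)
      ≤ kap f / (f.natDegree : ℝ) ^ (n + 1) := by gcongr
    _ ≤ kap f / (2 : ℝ) ^ (n + 1) := by gcongr
    _ = kap f / 2 * (1 / 2) ^ n := by
        rw [pow_succ]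
        field_simp
        rw [one_div, inv_pow]
        field_simp

lemma cauchySeq_gSeq {f : ℂ[X]} (hf : f.Monic) (hd : 2 ≤ f.natDegree) (z : ℂ) :
    CauchySeq (gSeq f z) := by
  refine cauchySeq_of_le_geometric (1 / 2) (kap f / 2) (by norm_num) fun n => ?_
  rw [Real.dist_eq]
  exact abs_gSeq_succ_sub hf hd z n

/-- the escape rate function -/
def green (f : ℂ[X]) (z : ℂ) : ℝ := limUnder atTop (gSeq f z)

lemma tendsto_green {f : ℂ[X]} (hf : f.Monic) (hd : 2 ≤ f.natDegree) (z : ℂ) :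
    Tendsto (gSeq f z) atTop (𝓝 (green f z)) :=
  (cauchySeq_gSeq hf hd z).tendsto_limUnder

lemma green_nonneg {f : ℂ[X]} (hf : f.Monic) (hd : 2 ≤ f.natDegree) (z : ℂ) : 0 ≤ green f z := by
  refine ge_of_tendsto' (tendsto_green hf hd z) fun n => ?_
  unfold gSeq
  have : 0 ≤ posLog ‖(act f)^[n] z‖ := posLog_nonneg
  positivity

lemma posLog_le_green {f : ℂ[X]} (hf : f.Monic) (hd : 2 ≤ f.natDegree) (z : ℂ) :
    posLog ‖z‖ ≤ kap f + green f z := by
  have h := dist_le_of_le_geometric_of_tendsto₀ (1 / 2) (kap f / 2) (by norm_num)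
    (fun n => by rw [Real.dist_eq]; exact abs_gSeq_succ_sub hf hd z n) (tendsto_green hf hd z)
  rw [Real.dist_eq] at h
  have h2 : gSeq f z 0 = posLog ‖z‖ := by simp [gSeq]
  rw [h2] at h
  have h3 := abs_le.mp h
  have h4 : kap f / 2 / (1 - 1 / 2) = kap f := by ring
  rw [h4] at h3
  linarith [h3.2]

lemma green_eval {f : ℂ[X]} (hf : f.Monic) (hd : 2 ≤ f.natDegree) (z : ℂ) :
    green f (f.eval z) = f.natDegree * green f z := by
  have hq : (2 : ℝ) ≤ f.natDegree := by exact_mod_cast hd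
  have hq0 : (f.natDegree : ℝ) ≠ 0 := by linarith
  have h1 := tendsto_green hf hd (f.eval z)
  have h2 := ((tendsto_add_atTop_iff_nat 1).mpr (tendsto_green hf hd z)).const_mul
    (f.natDegree : ℝ)
  refine tendsto_nhds_unique h1 (h2.congr fun n => ?_)
  unfold gSeq
  rw [Function.iterate_succ_apply, pow_succ]
  unfold act
  field_simp

lemma green_iterate {f : ℂ[X]} (hf : f.Monic) (hd : 2 ≤ f.natDegree) (z : ℂ) (n : ℕ) :
    green f ((act f)^[n] z) = (f.natDegree : ℝ) ^ n * green f z := by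
  induction n with
  | zero => simp
  | succ n ih =>
    rw [Function.iterate_succ_apply', act, green_eval hf hd, ih, pow_succ]
    ring

end

end Pool.Agent.H420R2
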