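import Mathlib
import Pool.Agent.H420R2.Green

/-!
Upper bound for the energy of a finite set of complex numbers.
-/

set_option autoImplicit false

namespace Pool.Agent.H420R2

open Polynomial Filter Topology Real

noncomputable section

lemma exists_basis {f : ℂ[X]} (hf : f.Monic) (hd : 2 ≤ f.natDegree) (k : ℕ) :
    ∃ b : ℂ[X], b.Monic ∧ b.natDegree = k ∧ ∀ z, ‖b.eval z‖ ≤
      Real.exp (kap f * f.natDegree * (Nat.log 2 k + 1) + k * green f z) := by
  have hk0 := kap_nonneg f
  have hpow : ∀ (j : ℕ) (z : ℂ), ‖z‖ ^ j ≤ Real.exp (j * (kap f + green f z)) := by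
    intro j z
    have h1 : ‖z‖ ≤ Real.exp (kap f + green f z) := by
      rcases eq_or_ne z 0 with rfl | hz
      · simp only [norm_zero]; positivity
      · rw [← Real.log_le_iff_le_exp (norm_pos_iff.mpr hz)]
        refine le_trans ?_ (posLog_le_green hf hd z)
        rw [posLog_apply]
        exact le_max_right _ _
    calc ‖z‖ ^ j ≤ (Real.exp (kap f + green f z)) ^ j := by gcongr
      _ = _ := by rw [← Real.exp_nat_mul]
  induction k using Nat.strong_induction_on with
  | _ k ih =>
    by_cases hk : k < f.natDegree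
    · refine ⟨X ^ k, monic_X_pow k, natDegree_X_pow k, fun z => ?_⟩
      rw [eval_pow, eval_X, norm_pow]
      refine (hpow k z).trans (Real.exp_le_exp.mpr ?_)
      have h1 : (k : ℝ) * kap f ≤ kap f * f.natDegree * (Nat.log 2 k + 1) := by
        have h2 : (k : ℝ) ≤ f.natDegree := by exact_mod_cast hk.le
        have h3 : (0 : ℝ) ≤ Nat.log 2 k := by positivity
        have h4 : (0 : ℝ) ≤ f.natDegree := by positivity
        calc (k : ℝ) * kap f ≤ f.natDegree * kap f := by gcongr
          _ = kap f * f.natDegree * 1 := by ring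
          _ ≤ kap f * f.natDegree * (Nat.log 2 k + 1) := by
            apply mul_le_mul_of_nonneg_left _ (by positivity)
            linarith
      linarith
    · push Not at hk
      have hq0 : 0 < f.natDegree := by omega
      have hlt : k / f.natDegree < k := Nat.div_lt_self (by omega) (by omega)
      obtain ⟨b, hb, hbd, hbz⟩ := ih _ hlt
      refine ⟨X ^ (k % f.natDegree) * b.comp f, ?_, ?_, fun z => ?_⟩
      · exact (monic_X_pow _).mul (hb.comp hf (by omega))
      · rw [Monic.natDegree_mul (monic_X_pow _) (hb.comp hf (by omega)), natDegree_X_pow,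
          natDegree_comp, hbd]
        rw [mul_comm]
        exact Nat.mod_add_div k f.natDegree
      · rw [eval_mul, eval_pow, eval_X, eval_comp, norm_mul, norm_pow]
        have h1 := hpow (k % f.natDegree) z
        have h2 := hbz (f.eval z)
        rw [green_eval hf hd] at h2
        refine (mul_le_mul h1 h2 (norm_nonneg _) (Real.exp_pos _).le).trans ?_
        rw [← Real.exp_add]
        apply Real.exp_le_exp.mpr
        have h3 : ((k % f.natDegree : ℕ) : ℝ) * kap f ≤ kap f * f.natDegree := by
          have : ((k % f.natDegree : ℕ) : ℝ) ≤ f.natDegree := by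
            exact_mod_cast (Nat.mod_lt k hq0).le
          nlinarith
        have h4 : (Nat.log 2 (k / f.natDegree) : ℝ) + 1 ≤ Nat.log 2 k := by
          have h5 : Nat.log 2 (k / f.natDegree) ≤ Nat.log 2 (k / 2) :=
            Nat.log_mono_right (Nat.div_le_div_left hd (by norm_num))
          have h6 : Nat.log 2 (k / 2) = Nat.log 2 k - 1 := Nat.log_div_base 2 k
          have h7 : 1 ≤ Nat.log 2 k := Nat.log_pos (by norm_num) (by omega)
          exact_mod_cast (by omega : Nat.log 2 (k / f.natDegree) + 1 ≤ Nat.log 2 k)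
        have h8 : ((k % f.natDegree : ℕ) : ℝ) + ((k / f.natDegree : ℕ) : ℝ) * f.natDegree = k := by
          exact_mod_cast (by rw [mul_comm]; exact Nat.mod_add_div k f.natDegree)
        have h9 : ((k % f.natDegree : ℕ) : ℝ) * (kap f + green f z) +
            (kap f * f.natDegree * (Nat.log 2 (k / f.natDegree) + 1) +
              ((k / f.natDegree : ℕ) : ℝ) * (f.natDegree * green f z)) =
            ((k % f.natDegree : ℕ) : ℝ) * kap f +
            kap f * f.natDegree * (Nat.log 2 (k / f.natDegree) + 1) +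
            (((k % f.natDegree : ℕ) : ℝ) + ((k / f.natDegree : ℕ) : ℝ) * f.natDegree) *
              green f z := by ring
        rw [h9, h8]
        have h10 : kap f * f.natDegree * ((Nat.log 2 (k / f.natDegree) : ℝ) + 1) ≤
            kap f * f.natDegree * (Nat.log 2 k : ℝ) := by
          apply mul_le_mul_of_nonneg_left h4 (by positivity)
        nlinarith

lemma norm_det_le {f : ℂ[X]} (hf : f.Monic) (hd : 2 ≤ f.natDegree) {m : ℕ} (z : Fin m → ℂ) :
    ‖(Matrix.vandermonde z).det‖ ≤ m.factorial *
      Real.exp (m * (kap f * f.natDegree * (Nat.log 2 m + 1)) + m * ∑ i, green f (z i)) := by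
  choose b hb hbd hbz using fun k => exists_basis hf hd k
  have hk0 := kap_nonneg f
  rw [Matrix.det_eval_matrixOfPolynomials_eq_det_vandermonde z (fun i => b i)
    (fun i => hbd i) (fun i => hb i), Matrix.det_apply]
  refine (norm_sum_le _ _).trans ?_
  have h1 : ∀ σ ∈ (Finset.univ : Finset (Equiv.Perm (Fin m))),
      ‖Equiv.Perm.sign σ • ∏ i, Matrix.of (fun i j : Fin m => (b j).eval (z i)) (σ i) i‖ ≤
      Real.exp (m * (kap f * f.natDegree * (Nat.log 2 m + 1)) + m * ∑ i, green f (z i)) := by
    intro σ _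
    have h2 : ‖Equiv.Perm.sign σ • ∏ i, Matrix.of (fun i j : Fin m => (b j).eval (z i)) (σ i) i‖ =
        ∏ i : Fin m, ‖(b i).eval (z (σ i))‖ := by
      rw [Units.smul_def, zsmul_eq_mul, norm_mul, norm_prod]
      simp only [Matrix.of_apply]
      rcases Int.units_eq_one_or (Equiv.Perm.sign σ) with h | h <;> simp [h]
    rw [h2]
    have h3 : ∏ i : Fin m, ‖(b i).eval (z (σ i))‖ ≤
        ∏ i : Fin m, Real.exp (kap f * f.natDegree * (Nat.log 2 m + 1) +
          m * green f (z (σ i))) := by
      apply Finset.prod_le_prod (fun i _ => norm_nonneg _)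
      intro i _
      refine (hbz i (z (σ i))).trans (Real.exp_le_exp.mpr ?_)
      have h4 : (Nat.log 2 (i : ℕ) : ℝ) ≤ Nat.log 2 m := by
        exact_mod_cast Nat.log_mono_right i.2.le
      have h5 : ((i : ℕ) : ℝ) ≤ m := by exact_mod_cast i.2.le
      have h6 := green_nonneg hf hd (z (σ i))
      have h7 : kap f * f.natDegree * ((Nat.log 2 (i : ℕ) : ℝ) + 1) ≤
          kap f * f.natDegree * ((Nat.log 2 m : ℝ) + 1) :=
        mul_le_mul_of_nonneg_left (by linarith) (by positivity)
      nlinarith
    refine h3.trans (le_of_eq ?_)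
    rw [← Real.exp_sum, Finset.sum_add_distrib, Finset.sum_const, Finset.card_univ,
      Fintype.card_fin, nsmul_eq_mul, ← Finset.mul_sum, Equiv.sum_comp σ (fun i => green f (z i))]
  refine (Finset.sum_le_sum h1).trans (le_of_eq ?_)
  rw [Finset.sum_const, Finset.card_univ, Fintype.card_perm, Fintype.card_fin, nsmul_eq_mul]

/-- energy of a finite set -/
def energy (W : Finset ℂ) : ℝ := ∑ z ∈ W, ∑ w ∈ W.erase z, Real.log ‖z - w‖

lemma energy_eq_fin {m : ℕ} (z : Fin m → ℂ) :
    ∑ i, ∑ j ∈ Finset.univ.erase i, Real.log ‖z i - z j‖ =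
      2 * ∑ i, ∑ j ∈ Finset.Ioi i, Real.log ‖z j - z i‖ := by
  have h1 : ∀ i : Fin m, ∑ j ∈ Finset.univ.erase i, Real.log ‖z i - z j‖ =
      ∑ j ∈ Finset.Ioi i, Real.log ‖z j - z i‖ + ∑ j ∈ Finset.Iio i, Real.log ‖z i - z j‖ := by
    intro i
    have h2 : (Finset.univ.erase i : Finset (Fin m)) = Finset.Ioi i ∪ Finset.Iio i := by
      ext j
      simp only [Finset.mem_erase, Finset.mem_univ, and_true, Finset.mem_union,
        Finset.mem_Ioi, Finset.mem_Iio]
      constructor
      · intro h
        rcases lt_or_gt_of_ne h with h | h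
        · exact Or.inr h
        · exact Or.inl h
      · rintro (h | h)
        · exact ne_of_gt h
        · exact ne_of_lt h
    have h3 : Disjoint (Finset.Ioi i) (Finset.Iio i) := by
      rw [Finset.disjoint_left]
      intro j hj hj'
      exact absurd (Finset.mem_Ioi.mp hj) (not_lt.mpr (Finset.mem_Iio.mp hj').le)
    rw [h2, Finset.sum_union h3]
    congr 1
    refine Finset.sum_congr rfl fun j _ => ?_
    rw [norm_sub_rev]
  rw [Finset.sum_congr rfl fun i _ => h1 i, Finset.sum_add_distrib, two_mul]
  congr 1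
  rw [Finset.sum_comm' (t := fun i : Fin m => Finset.Iio i) (t' := Finset.univ)
    (s' := fun j : Fin m => Finset.Ioi j)]
  intro i j
  simp

lemma energy_le {f : ℂ[X]} (hf : f.Monic) (hd : 2 ≤ f.natDegree) (W : Finset ℂ) :
    energy W ≤ 2 * (W.card * ((1 + 2 * kap f * f.natDegree) * (1 + Real.log W.card)) +
      W.card * ∑ z ∈ W, green f z) := by
  have hk0 := kap_nonneg f
  rcases W.eq_empty_or_nonempty with rfl | hW
  · simp [energy]
  set m := W.card with hm
  have hm1 : 1 ≤ m := Finset.card_pos.mpr hW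
  have hm1' : (1 : ℝ) ≤ m := by exact_mod_cast hm1
  let e : Fin m ≃ W := (Finset.equivFinOfCardEq hm.symm).symm
  let z : Fin m → ℂ := fun i => (e i : ℂ)
  have hz : Function.Injective z := Subtype.val_injective.comp e.injective
  have himg : Finset.univ.map ⟨z, hz⟩ = W := by
    ext w
    simp only [Finset.mem_map, Finset.mem_univ, true_and, Function.Embedding.coeFn_mk, z]
    constructor
    · rintro ⟨i, rfl⟩
      exact (e i).2
    · intro hw
      exact ⟨e.symm ⟨w, hw⟩, by simp⟩
  have h1 : energy W = ∑ i, ∑ j ∈ Finset.univ.erase i, Real.log ‖z i - z j‖ := by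
    unfold energy
    conv_lhs => rw [← himg]
    rw [Finset.sum_map]
    refine Finset.sum_congr rfl fun i _ => ?_
    have h2 : (Finset.univ.map ⟨z, hz⟩).erase ((⟨z, hz⟩ : Fin m ↪ ℂ) i) =
        (Finset.univ.erase i).map ⟨z, hz⟩ := by
      rw [Finset.map_erase]
    rw [h2, Finset.sum_map]
    rfl
  have h2 : ∑ w ∈ W, green f w = ∑ i, green f (z i) := by
    conv_lhs => rw [← himg]
    rw [Finset.sum_map]
    rfl
  rw [h1, energy_eq_fin, h2]
  have hdet : (Matrix.vandermonde z).det ≠ 0 := Matrix.det_vandermonde_ne_zero_iff.mpr hz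
  have h3 : ∑ i, ∑ j ∈ Finset.Ioi i, Real.log ‖z j - z i‖ =
      Real.log ‖(Matrix.vandermonde z).det‖ := by
    rw [Matrix.det_vandermonde, norm_prod, Real.log_prod]
    · refine Finset.sum_congr rfl fun i _ => ?_
      rw [norm_prod, Real.log_prod]
      intro j hj
      rw [norm_ne_zero_iff, sub_ne_zero]
      exact hz.ne (ne_of_gt (Finset.mem_Ioi.mp hj))
    · intro i _
      rw [norm_ne_zero_iff, Finset.prod_ne_zero_iff]
      intro j hj
      rw [sub_ne_zero]
      exact hz.ne (ne_of_gt (Finset.mem_Ioi.mp hj))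
  rw [h3]
  have h4 := Real.log_le_log (norm_pos_iff.mpr hdet) (norm_det_le hf hd z)
  have h5 : (0 : ℝ) < m.factorial := by exact_mod_cast m.factorial_pos
  rw [Real.log_mul h5.ne' (Real.exp_pos _).ne', Real.log_exp] at h4
  have h6 : Real.log m.factorial ≤ m * Real.log m := by
    rw [← Real.log_pow]
    apply Real.log_le_log h5
    exact_mod_cast Nat.factorial_le_pow m
  have h7 : (Nat.log 2 m : ℝ) ≤ 2 * Real.log m := by
    have h8 : (2 : ℝ) ^ (Nat.log 2 m) ≤ m := by
      exact_mod_cast Nat.pow_log_le_self 2 (by omega)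
    have h9 := Real.log_le_log (by positivity) h8
    rw [Real.log_pow] at h9
    have h10 : (1 : ℝ) / 2 ≤ Real.log 2 := by
      have := Real.log_two_gt_d9
      linarith
    have h11 : (0 : ℝ) ≤ Nat.log 2 m := by positivity
    nlinarith
  have hlog : 0 ≤ Real.log m := Real.log_nonneg hm1'
  have h12 : (m : ℝ) * (kap f * f.natDegree * (Nat.log 2 m + 1)) ≤
      m * (kap f * f.natDegree * (2 * (1 + Real.log m))) := by
    apply mul_le_mul_of_nonneg_left _ (by positivity)
    apply mul_le_mul_of_nonneg_left _ (by positivity)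
    linarith
  have h13 : (m : ℝ) * Real.log m ≤ m * (1 + Real.log m) := by nlinarith
  have : (m : ℝ) * ((1 + 2 * kap f * f.natDegree) * (1 + Real.log m)) =
      m * (1 + Real.log m) + m * (kap f * f.natDegree * (2 * (1 + Real.log m))) := by ring
  rw [this]
  linarith

end

end Pool.Agent.H420R2
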