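import Mathlib
import Pool.Agent.H420R2.Arith
import Pool.Agent.H420R2.Vander

/-!
The energy inequality for the conjugates of finitely many points of an orbit.
-/

set_option autoImplicit false

namespace Pool.Agent.H420R2

open Polynomial NumberField Module IntermediateField

noncomputable section

variable {K L : Type*} [Field K] [NumberField K] [Field L] [NumberField L] [Algebra K L]

lemma disjoint_cjt {f : (𝓞 K)[X]} {x : 𝓞 L} (hinj : Function.Injective (xs f x)) {i j : ℕ}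
    (hij : i ≠ j) (τ : K →ₐ[ℚ] ℂ) :
    Disjoint (cjt τ (xs f x i : L)) (cjt τ (xs f x j : L)) := by
  let : Algebra K ℂ := τ.toRingHom.toAlgebra
  rw [Finset.disjoint_left]
  intro y h1 h2
  have hi : IsIntegral K (xs f x i : L) := Algebra.IsIntegral.isIntegral _
  have hj : IsIntegral K (xs f x j : L) := Algebra.IsIntegral.isIntegral _
  have h3 : aeval y (minpoly K (xs f x i : L)) = 0 := (mem_cj hi).mp h1
  have h4 : aeval y (minpoly K (xs f x j : L)) = 0 := (mem_cj hj).mp h2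
  have h5 := minpoly.eq_of_irreducible_of_monic (minpoly.irreducible hi) h3 (minpoly.monic hi)
  have h6 := minpoly.eq_of_irreducible_of_monic (minpoly.irreducible hj) h4 (minpoly.monic hj)
  have h7 : minpoly K (xs f x i : L) = minpoly K (xs f x j : L) := h5.trans h6.symm
  rw [minpoly_coe, minpoly_coe] at h7
  have h8 := Polynomial.map_injective _ (IsFractionRing.injective (𝓞 K) K) h7
  have h9 : aeval (xs f x j) (mp f x i) = 0 := by
    rw [mp, h8]
    exact minpoly.aeval _ _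
  exact aeval_ne_zero hinj hij h9

/-- all the conjugates of the points of the orbit with index in `S` -/
def wset (f : (𝓞 K)[X]) (x : 𝓞 L) (S : Finset ℕ) (τ : K →ₐ[ℚ] ℂ) : Finset ℂ :=
  S.biUnion fun i => cjt τ (xs f x i : L)

lemma sum_wset {f : (𝓞 K)[X]} {x : 𝓞 L} (hinj : Function.Injective (xs f x)) (S : Finset ℕ)
    (τ : K →ₐ[ℚ] ℂ) (ψ : ℂ → ℝ) :
    ∑ z ∈ wset f x S τ, ψ z = ∑ i ∈ S, ∑ z ∈ cjt τ (xs f x i : L), ψ z :=
  Finset.sum_biUnion fun _ _ _ _ hij => disjoint_cjt hinj hij τ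

lemma card_wset {f : (𝓞 K)[X]} {x : 𝓞 L} (hinj : Function.Injective (xs f x)) (S : Finset ℕ)
    (τ : K →ₐ[ℚ] ℂ) : (wset f x S τ).card = ∑ i ∈ S, (mp f x i).natDegree := by
  rw [wset, Finset.card_biUnion fun i _ j _ hij => disjoint_cjt hinj hij τ]
  exact Finset.sum_congr rfl fun i _ => card_cjt τ (xs f x i)

/-- the energy of the conjugates of a single point -/
def selfE (f : (𝓞 K)[X]) (x : 𝓞 L) (τ : K →ₐ[ℚ] ℂ) (i : ℕ) : ℝ :=
  energy (cjt τ (xs f x i : L))

lemma energy_wset {f : (𝓞 K)[X]} {x : 𝓞 L} (hinj : Function.Injective (xs f x)) (S : Finset ℕ)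
    (τ : K →ₐ[ℚ] ℂ) :
    energy (wset f x S τ) = ∑ i ∈ S, selfE f x τ i +
      ∑ i ∈ S, ∑ j ∈ S.erase i, cross f x τ j i := by
  unfold energy
  rw [sum_wset hinj, ← Finset.sum_add_distrib]
  refine Finset.sum_congr rfl fun i hi => ?_
  have h1 : ∀ z ∈ cjt τ (xs f x i : L), ∑ w ∈ (wset f x S τ).erase z, Real.log ‖z - w‖ =
      ∑ w ∈ (cjt τ (xs f x i : L)).erase z, Real.log ‖z - w‖ +
        ∑ j ∈ S.erase i, ∑ w ∈ cjt τ (xs f x j : L), Real.log ‖z - w‖ := by
    intro z hz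
    have hzW : z ∈ wset f x S τ := Finset.mem_biUnion.mpr ⟨i, hi, hz⟩
    have h2 : ∑ w ∈ (wset f x S τ).erase z, Real.log ‖z - w‖ =
        ∑ w ∈ wset f x S τ, Real.log ‖z - w‖ := by
      rw [← Finset.add_sum_erase _ _ hzW]
      simp
    have h3 : ∑ w ∈ (cjt τ (xs f x i : L)).erase z, Real.log ‖z - w‖ =
        ∑ w ∈ cjt τ (xs f x i : L), Real.log ‖z - w‖ := by
      rw [← Finset.add_sum_erase _ _ hz]
      simp
    rw [h2, h3, sum_wset hinj, ← Finset.add_sum_erase _ _ hi]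
  rw [Finset.sum_congr rfl h1, Finset.sum_add_distrib]
  congr 1
  rw [Finset.sum_comm]
  rfl

lemma selfE_nonneg (f : (𝓞 K)[X]) (x : 𝓞 L) (i : ℕ) :
    0 ≤ ∑ τ : K →ₐ[ℚ] ℂ, selfE f x τ i := by
  have hz : IsIntegral K (xs f x i : L) := Algebra.IsIntegral.isIntegral _
  have h0 : aeval (xs f x i) (derivative (mp f x i)) ≠ 0 := by
    intro h
    have h1 : aeval (xs f x i : L) (derivative (minpoly K (xs f x i : L))) = 0 := by
      rw [minpoly_coe, derivative_map, aeval_map_algebraMap]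
      have h2 := congrArg (algebraMap (𝓞 L) L) h
      rw [map_zero, ← aeval_algebraMap_apply] at h2
      exact h2
    exact (minpoly.irreducible hz).separable.aeval_derivative_ne_zero (minpoly.aeval _ _) h1
  have h1 := sum_all (K := K) (xs f x i : L)
    (fun τ y => ∑ w ∈ (cjt τ (xs f x i : L)).erase y, Real.log ‖y - w‖)
  have h2 : ∑ φ : L →ₐ[ℚ] ℂ, ∑ w ∈ (cjt (res (K := K) φ) (xs f x i : L)).erase
      (φ (xs f x i : L)), Real.log ‖φ (xs f x i : L) - w‖ =
      lam (aeval (xs f x i) (derivative (mp f x i))) := by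
    unfold lam
    refine Finset.sum_congr rfl fun φ _ => ?_
    have hmem : φ (xs f x i : L) ∈ cjt (res (K := K) φ) (xs f x i : L) := by
      have h3 : φ ((aeval (xs f x i) (mp f x i) : 𝓞 L) : L) = 0 := by
        rw [show aeval (xs f x i) (mp f x i) = 0 from minpoly.aeval _ _]
        simp
      rw [aeval_xs_eq, Finset.prod_eq_zero_iff] at h3
      obtain ⟨y, hy, hy'⟩ := h3
      rw [sub_eq_zero] at hy'
      rw [hy']
      exact hy
    have h4 : φ ((aeval (xs f x i) (derivative (mp f x i)) : 𝓞 L) : L) =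
        ∏ w ∈ (cjt (res (K := K) φ) (xs f x i : L)).erase (φ (xs f x i : L)),
          (φ (xs f x i : L) - w) := by
      rw [map_aeval, pol, ← derivative_map]
      have h5 : (mp f x i).map ((res (K := K) φ).toRingHom.comp (algebraMap (𝓞 K) K)) =
          Lagrange.nodal (cjt (res (K := K) φ) (xs f x i : L)) id := by
        have := pol_minpoly (res (K := K) φ) (xs f x i)
        rw [pol] at this
        rw [mp, this]
        rfl
      rw [h5]
      have h6 := Lagrange.eval_nodal_derivative_eval_node_eq (v := (id : ℂ → ℂ)) hmem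
      rw [show (id : ℂ → ℂ) (φ (xs f x i : L)) = φ (xs f x i : L) from rfl] at h6
      rw [h6, Lagrange.eval_nodal]
      rfl
    rw [h4, norm_prod, Real.log_prod]
    intro w hw
    rw [norm_ne_zero_iff, sub_ne_zero]
    exact (Finset.ne_of_mem_erase hw).symm
  have h3 : 0 ≤ (finrank K⟮(xs f x i : L)⟯ L : ℝ) * ∑ τ : K →ₐ[ℚ] ℂ, selfE f x τ i := by
    unfold selfE energy
    rw [← h1, h2]
    exact lam_nonneg h0
  have h4 : (0 : ℝ) < finrank K⟮(xs f x i : L)⟯ L := by
    exact_mod_cast cd_pos f x i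
  by_contra h
  push Not at h
  nlinarith

/-- the total escape rate of a point -/
def totG (f : (𝓞 K)[X]) (x : 𝓞 L) : ℝ := ∑ φ : L →ₐ[ℚ] ℂ, green (pol (res (K := K) φ) f) (φ (x : L))

lemma pol_monic {f : (𝓞 K)[X]} (hf : f.Monic) (τ : K →ₐ[ℚ] ℂ) : (pol τ f).Monic := hf.map _

lemma pol_natDegree {f : (𝓞 K)[X]} (hf : f.Monic) (τ : K →ₐ[ℚ] ℂ) :
    (pol τ f).natDegree = f.natDegree := hf.natDegree_map _

lemma phi_xs (f : (𝓞 K)[X]) (x : 𝓞 L) (i : ℕ) (φ : L →ₐ[ℚ] ℂ) :
    φ (xs f x i : L) = (act (pol (res (K := K) φ) f))^[i] (φ (x : L)) := by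
  induction i with
  | zero => rfl
  | succ i ih =>
    rw [xs_succ, map_aeval, ih, Function.iterate_succ_apply']
    rfl

lemma sum_green {f : (𝓞 K)[X]} (hf : f.Monic) (hd : 2 ≤ f.natDegree) (x : 𝓞 L) (i : ℕ) :
    ∑ τ : K →ₐ[ℚ] ℂ, ∑ z ∈ cjt τ (xs f x i : L), green (pol τ f) z =
      (f.natDegree : ℝ) ^ i * totG f x / cd f x i := by
  have h1 := sum_all (K := K) (xs f x i : L) (fun τ y => green (pol τ f) y)
  have h2 : ∑ φ : L →ₐ[ℚ] ℂ, green (pol (res (K := K) φ) f) (φ (xs f x i : L)) =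
      (f.natDegree : ℝ) ^ i * totG f x := by
    unfold totG
    rw [Finset.mul_sum]
    refine Finset.sum_congr rfl fun φ _ => ?_
    rw [phi_xs, green_iterate (pol_monic hf _) (by rw [pol_natDegree hf]; exact hd),
      pol_natDegree hf]
  have h3 : (0 : ℝ) < cd f x i := by exact_mod_cast cd_pos f x i
  rw [← h2, eq_div_iff h3.ne', h1, mul_comm]
  rfl

/-- constant depending on `f` only -/
def bigA (f : (𝓞 K)[X]) : ℝ :=
  ∑ τ : K →ₐ[ℚ] ℂ, (1 + 2 * kap (pol τ f) * f.natDegree)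

lemma main_ineq {f : (𝓞 K)[X]} (hf : f.Monic) (hd : 2 ≤ f.natDegree) {x : 𝓞 L}
    (hinj : Function.Injective (xs f x)) (S : Finset ℕ) :
    ∑ i ∈ S, ∑ j ∈ S.erase i, rho f x j i / cd f x i ≤
      2 * ((∑ i ∈ S, (mp f x i).natDegree : ℕ) *
        (bigA f * (1 + Real.log (∑ i ∈ S, (mp f x i).natDegree : ℕ))) +
        (∑ i ∈ S, (mp f x i).natDegree : ℕ) *
          ∑ i ∈ S, (f.natDegree : ℝ) ^ i * totG f x / cd f x i) := by
  set m : ℕ := ∑ i ∈ S, (mp f x i).natDegree with hm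
  have h1 : ∀ τ : K →ₐ[ℚ] ℂ, energy (wset f x S τ) ≤
      2 * (m * ((1 + 2 * kap (pol τ f) * f.natDegree) * (1 + Real.log m)) +
        m * ∑ z ∈ wset f x S τ, green (pol τ f) z) := by
    intro τ
    have := energy_le (pol_monic hf τ) (by rw [pol_natDegree hf]; exact hd) (wset f x S τ)
    rwa [card_wset hinj, pol_natDegree hf, ← hm] at this
  have h2 := Finset.sum_le_sum fun τ (_ : τ ∈ (Finset.univ : Finset (K →ₐ[ℚ] ℂ))) => h1 τ
  have h3 : ∑ τ : K →ₐ[ℚ] ℂ, energy (wset f x S τ) =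
      ∑ i ∈ S, ∑ τ : K →ₐ[ℚ] ℂ, selfE f x τ i +
        ∑ i ∈ S, ∑ j ∈ S.erase i, rho f x j i / cd f x i := by
    rw [Finset.sum_congr rfl fun τ _ => energy_wset hinj S τ, Finset.sum_add_distrib]
    congr 1
    · rw [Finset.sum_comm]
    · rw [Finset.sum_comm]
      refine Finset.sum_congr rfl fun i _ => ?_
      rw [Finset.sum_comm]
      refine Finset.sum_congr rfl fun j hj => ?_
      have h3 : (0 : ℝ) < cd f x i := by exact_mod_cast cd_pos f x i
      rw [rho_eq hinj (Finset.ne_of_mem_erase hj), mul_div_cancel_left₀ _ h3.ne']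
  have h4 : 0 ≤ ∑ i ∈ S, ∑ τ : K →ₐ[ℚ] ℂ, selfE f x τ i :=
    Finset.sum_nonneg fun i _ => selfE_nonneg f x i
  have h5 : ∑ τ : K →ₐ[ℚ] ℂ,
      2 * (m * ((1 + 2 * kap (pol τ f) * f.natDegree) * (1 + Real.log m)) +
        m * ∑ z ∈ wset f x S τ, green (pol τ f) z) =
      2 * (m * (bigA f * (1 + Real.log m)) +
        m * ∑ i ∈ S, (f.natDegree : ℝ) ^ i * totG f x / cd f x i) := by
    rw [← Finset.mul_sum, Finset.sum_add_distrib, ← Finset.mul_sum, ← Finset.sum_mul,
      ← Finset.mul_sum]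
    congr 3
    rw [Finset.sum_congr rfl fun τ _ => sum_wset hinj S τ (fun z => green (pol τ f) z),
      Finset.sum_comm]
    exact Finset.sum_congr rfl fun i _ => sum_green hf hd x i
  rw [h3, h5] at h2
  linarith

end

end Pool.Agent.H420R2
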