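import Mathlib
import Pool.Agent.H420R2.Energy

/-!
Canonical heights of polynomials with integral coefficients.
-/

set_option autoImplicit false

namespace Pool.Agent.H420R2

open Polynomial NumberField Module Filter Topology
open Real (posLog)

noncomputable section

variable {K L : Type*} [Field K] [NumberField K] [Field L] [NumberField L] [Algebra K L]

/-- the orbit of a point -/
def orb (f : (𝓞 K)[X]) (x : L) (n : ℕ) : L := (fun y : L => aeval y f)^[n] x

omit [NumberField K] [NumberField L] in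
lemma orb_zero (f : (𝓞 K)[X]) (x : L) : orb f x 0 = x := rfl

omit [NumberField K] [NumberField L] in
lemma orb_succ (f : (𝓞 K)[X]) (x : L) (n : ℕ) : orb f x (n + 1) = aeval (orb f x n) f := by
  unfold orb
  rw [Function.iterate_succ_apply']

lemma orb_coe (f : (𝓞 K)[X]) (x : 𝓞 L) (n : ℕ) : orb f (x : L) n = (xs f x n : L) := by
  induction n with
  | zero => rfl
  | succ n ih =>
    rw [orb_succ, ih, xs_succ]
    exact aeval_algebraMap_apply L (xs f x n) f

/-! ### archimedean part -/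

lemma sum_infinite (y : L) :
    ∑ v : InfinitePlace L, (v.mult : ℝ) * posLog (v y) = ∑ φ : L →ₐ[ℚ] ℂ, posLog ‖φ y‖ := by
  classical
  have h1 : ∑ φ : L →ₐ[ℚ] ℂ, posLog ‖φ y‖ = ∑ φ : L →+* ℂ, posLog ‖φ y‖ :=
    (Fintype.sum_equiv (RingHom.equivRatAlgHom L ℂ) _ _ (fun φ => rfl)).symm
  rw [h1]
  have h2 : ∀ φ : L →+* ℂ, posLog ‖φ y‖ = posLog (InfinitePlace.mk φ y) := fun φ => rfl
  simp_rw [h2]
  rw [← Finset.sum_fiberwise_of_maps_to (s := Finset.univ) (t := Finset.univ)
    (g := fun φ : L →+* ℂ => InfinitePlace.mk φ) (fun _ _ => Finset.mem_univ _)]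
  refine Finset.sum_congr rfl fun v _ => ?_
  rw [Finset.sum_congr rfl (g := fun _ => posLog (v y)) (by
    intro φ hφ
    rw [Finset.mem_filter] at hφ
    rw [hφ.2])]
  rw [Finset.sum_const, InfinitePlace.card_filter_mk_eq, nsmul_eq_mul]

/-- total escape rate for an arbitrary point -/
def totGL (f : (𝓞 K)[X]) (x : L) : ℝ := ∑ φ : L →ₐ[ℚ] ℂ, green (pol (res (K := K) φ) f) (φ x)

lemma totGL_coe (f : (𝓞 K)[X]) (x : 𝓞 L) : totGL f (x : L) = totG f x := rfl

lemma map_aeval' (φ : L →ₐ[ℚ] ℂ) (z : L) (g : (𝓞 K)[X]) :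
    φ (aeval z g) = (pol (res φ) g).eval (φ z) := by
  rw [pol, eval_map, aeval_def, show φ (eval₂ (algebraMap (𝓞 K) L) z g) =
    φ.toRingHom (eval₂ (algebraMap (𝓞 K) L) z g) from rfl, hom_eval₂]
  rfl

lemma phi_orb (f : (𝓞 K)[X]) (x : L) (i : ℕ) (φ : L →ₐ[ℚ] ℂ) :
    φ (orb f x i) = (act (pol (res (K := K) φ) f))^[i] (φ x) := by
  induction i with
  | zero => rfl
  | succ i ih =>
    rw [orb_succ, map_aeval', ih, Function.iterate_succ_apply']
    rfl

lemma tendsto_arch {f : (𝓞 K)[X]} (hf : f.Monic) (hd : 2 ≤ f.natDegree) (x : L) :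
    Tendsto (fun n => (∑ v : InfinitePlace L, (v.mult : ℝ) * posLog (v (orb f x n))) /
      (f.natDegree : ℝ) ^ n) atTop (𝓝 (totGL f x)) := by
  have h1 : ∀ φ : L →ₐ[ℚ] ℂ, Tendsto (gSeq (pol (res (K := K) φ) f) (φ x)) atTop
      (𝓝 (green (pol (res (K := K) φ) f) (φ x))) := fun φ =>
    tendsto_green (pol_monic hf _) (by rw [pol_natDegree hf]; exact hd) _
  have h2 := tendsto_finsetSum (Finset.univ : Finset (L →ₐ[ℚ] ℂ)) fun φ _ => h1 φ
  refine h2.congr fun n => ?_
  rw [sum_infinite, Finset.sum_div]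
  refine Finset.sum_congr rfl fun φ _ => ?_
  rw [gSeq, pol_natDegree hf, phi_orb]

lemma totGL_nonneg {f : (𝓞 K)[X]} (hf : f.Monic) (hd : 2 ≤ f.natDegree) (x : L) :
    0 ≤ totGL f x :=
  Finset.sum_nonneg fun φ _ => green_nonneg (pol_monic hf _)
    (by rw [pol_natDegree hf]; exact hd) _

/-! ### finite part -/

lemma fin_coe_le (v : FinitePlace L) (y : 𝓞 L) : v (y : L) ≤ 1 := by
  rw [← FinitePlace.norm_embedding_eq v]
  exact FinitePlace.norm_le_one L v.maximalIdeal y

lemma fin_sum_le (v : FinitePlace L) {ι : Type*} (s : Finset ι) (g : ι → L) {B : ℝ} (hB : 0 ≤ B)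
    (h : ∀ i ∈ s, v (g i) ≤ B) : v (∑ i ∈ s, g i) ≤ B := by
  classical
  induction s using Finset.induction_on with
  | empty => simpa using hB
  | insert a s ha ih =>
    rw [Finset.sum_insert ha]
    refine (FinitePlace.add_le v _ _).trans (max_le (h a (Finset.mem_insert_self _ _)) ?_)
    exact ih fun i hi => h i (Finset.mem_insert_of_mem hi)

omit [NumberField K] in
lemma fin_coeff_le (v : FinitePlace L) (a : 𝓞 K) : v (algebraMap (𝓞 K) L a) ≤ 1 := by
  have h1 : algebraMap (𝓞 K) L a = ((algebraMap (𝓞 K) (𝓞 L) a : 𝓞 L) : L) := rfl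
  rw [h1]
  exact fin_coe_le v _

omit [NumberField K] in
lemma fin_aeval_le (v : FinitePlace L) (f : (𝓞 K)[X]) {y : L} (hy : v y ≤ 1) :
    v (aeval y f) ≤ 1 := by
  rw [aeval_eq_sum_range]
  refine fin_sum_le v _ _ zero_le_one fun i _ => ?_
  rw [Algebra.smul_def, map_mul, map_pow]
  exact mul_le_one₀ (fin_coeff_le v _) (by positivity) (pow_le_one₀ (by positivity) hy)

omit [NumberField K] in
lemma fin_aeval_eq (v : FinitePlace L) {f : (𝓞 K)[X]} (hf : f.Monic) (hd : 1 ≤ f.natDegree)
    {y : L} (hy : 1 < v y) : v (aeval y f) = v y ^ f.natDegree := by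
  obtain ⟨q, hq⟩ : ∃ q, f.natDegree = q + 1 := ⟨f.natDegree - 1, by omega⟩
  rw [aeval_eq_sum_range, Finset.sum_range_succ, hf.coeff_natDegree, one_smul, hq]
  set R : L := ∑ i ∈ Finset.range (q + 1), f.coeff i • y ^ i with hR
  have h1 : v R ≤ v y ^ q := by
    refine fin_sum_le v _ _ (by positivity) fun i hi => ?_
    rw [Finset.mem_range] at hi
    rw [Algebra.smul_def, map_mul, map_pow]
    have h2 := fin_coeff_le v (f.coeff i)
    have h3 : v y ^ i ≤ v y ^ q := pow_le_pow_right₀ hy.le (by omega)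
    have h4 : 0 ≤ v y ^ i := by positivity
    calc v (algebraMap (𝓞 K) L (f.coeff i)) * v y ^ i ≤ 1 * v y ^ i := by gcongr
      _ ≤ v y ^ q := by rw [one_mul]; exact h3
  have h2 : v y ^ q < v y ^ (q + 1) := pow_lt_pow_right₀ hy (by omega)
  have h3 : v (y ^ (q + 1)) = v y ^ (q + 1) := map_pow v y (q + 1)
  apply le_antisymm
  · refine (FinitePlace.add_le v _ _).trans (max_le (h1.trans h2.le) h3.le)
  · have h4 : y ^ (q + 1) = (R + y ^ (q + 1)) + (-1 : 𝓞 L) * R := by
      push_cast
      ring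
    have h5 : v (y ^ (q + 1)) ≤ max (v (R + y ^ (q + 1))) (v R) := by
      conv_lhs => rw [h4]
      refine (FinitePlace.add_le v _ _).trans (max_le_max le_rfl ?_)
      rw [map_mul]
      have h6 := fin_coe_le v (-1 : 𝓞 L)
      have h7 : 0 ≤ v R := by positivity
      calc v (((-1 : 𝓞 L) : L)) * v R ≤ 1 * v R := by gcongr
        _ = v R := one_mul _
    rw [h3] at h5
    rcases le_max_iff.mp h5 with h6 | h6
    · exact h6
    · linarith

lemma fin_orb (v : FinitePlace L) {f : (𝓞 K)[X]} (hf : f.Monic) (hd : 1 ≤ f.natDegree) (y : L)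
    (n : ℕ) : posLog (v (orb f y n)) = (f.natDegree : ℝ) ^ n * posLog (v y) := by
  by_cases hy : 1 < v y
  · have h1 : v (orb f y n) = v y ^ (f.natDegree ^ n) := by
      induction n with
      | zero => simp [orb_zero]
      | succ n ih =>
        have h2 : 1 < v (orb f y n) := by
          rw [ih]
          exact one_lt_pow₀ hy (by positivity)
        rw [orb_succ, fin_aeval_eq v hf hd h2, ih, ← pow_mul, pow_succ]
    rw [h1]
    have h3 : 1 ≤ |v y| := by
      rw [abs_of_pos (by linarith)]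
      exact hy.le
    have h4 : 1 ≤ |v y ^ (f.natDegree ^ n)| := by
      rw [abs_pow]
      exact one_le_pow₀ h3
    rw [Real.posLog_eq_log h3, Real.posLog_eq_log h4, Real.log_pow]
    push_cast
    ring
  · push Not at hy
    have h1 : v (orb f y n) ≤ 1 := by
      induction n with
      | zero => exact hy
      | succ n ih =>
        rw [orb_succ]
        exact fin_aeval_le v f ih
    have h2 : 0 ≤ v (orb f y n) := by positivity
    have h3 : 0 ≤ v y := by positivity
    rw [(Real.posLog_eq_zero_iff _).mpr (by rwa [abs_of_nonneg h2]),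
      (Real.posLog_eq_zero_iff _).mpr (by rwa [abs_of_nonneg h3]), mul_zero]

/-- finite part of the height -/
def finPart (y : L) : ℝ := ∑ᶠ v : FinitePlace L, posLog (v y)

lemma finPart_orb {f : (𝓞 K)[X]} (hf : f.Monic) (hd : 1 ≤ f.natDegree) (y : L) (n : ℕ) :
    finPart (orb f y n) = (f.natDegree : ℝ) ^ n * finPart y := by
  unfold finPart
  rw [mul_finsum]
  exact finsum_congr fun v => fin_orb v hf hd y n

lemma finPart_nonneg (y : L) : 0 ≤ finPart y := finsum_nonneg fun _ => Real.posLog_nonneg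

lemma two_le_of_one_lt (v : FinitePlace L) {y : L} (hy : 1 < v y) : 2 ≤ v y := by
  have hy0 : y ≠ 0 := by
    rintro rfl
    rw [map_zero] at hy
    linarith
  obtain ⟨a, b, hb, hab⟩ := IsFractionRing.div_surjective (A := 𝓞 L) y
  have hb0 : b ≠ 0 := nonZeroDivisors.ne_zero hb
  have ha0 : a ≠ 0 := by
    rintro rfl
    rw [map_zero, zero_div] at hab
    exact hy0 hab.symm
  set N : ℕ := v.maximalIdeal.asIdeal.absNorm with hN
  have hN2 : 2 ≤ N := by
    have := HeightOneSpectrum.one_lt_absNorm v.maximalIdeal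
    omega
  have h1 := FinitePlace.apply_mul_absNorm_pow_eq_one v ha0
  have h2 := FinitePlace.apply_mul_absNorm_pow_eq_one v hb0
  set ka := multiplicity v.maximalIdeal.asIdeal (Ideal.span {a}) with hka
  set kb := multiplicity v.maximalIdeal.asIdeal (Ideal.span {b}) with hkb
  rw [← hN] at h1 h2
  have hNr : (2 : ℝ) ≤ N := by exact_mod_cast hN2
  have hNa : (0 : ℝ) < (N : ℝ) ^ ka := by positivity
  have hNb : (0 : ℝ) < (N : ℝ) ^ kb := by positivity
  have h3 : v y = (N : ℝ) ^ kb / (N : ℝ) ^ ka := by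
    rw [← hab, map_div₀]
    have e1 : v (algebraMap (𝓞 L) L a) = 1 / (N : ℝ) ^ ka := by
      rw [eq_div_iff hNa.ne']
      exact h1
    have e2 : v (algebraMap (𝓞 L) L b) = 1 / (N : ℝ) ^ kb := by
      rw [eq_div_iff hNb.ne']
      exact h2
    rw [e1, e2]
    field_simp
  rw [h3] at hy ⊢
  rw [one_lt_div hNa] at hy
  have h4 : ka < kb := by
    by_contra hcon
    push Not at hcon
    have : (N : ℝ) ^ kb ≤ (N : ℝ) ^ ka := pow_le_pow_right₀ (by linarith) hcon
    linarith
  rw [le_div_iff₀ hNa]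
  calc 2 * (N : ℝ) ^ ka ≤ N * (N : ℝ) ^ ka := by gcongr
    _ = (N : ℝ) ^ (ka + 1) := by ring
    _ ≤ (N : ℝ) ^ kb := pow_le_pow_right₀ (by linarith) h4

lemma exists_fin_of_not_integral {y : L} (hy : ¬ ∃ x : 𝓞 L, (x : L) = y) :
    ∃ v : FinitePlace L, 1 < v y := by
  by_contra h
  push Not at h
  apply hy
  have h1 : y ∈ (algebraMap (𝓞 L) L).range := by
    apply IsDedekindDomain.HeightOneSpectrum.mem_integers_of_valuation_le_one L y
    intro w
    have h2 := h (FinitePlace.mk w)
    rw [FinitePlace.mk_apply, FinitePlace.norm_embedding'] at h2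
    by_contra hcon
    push Not at hcon
    have h3 := (WithZeroMulInt.toNNReal_strictMono
      (HeightOneSpectrum.one_lt_absNorm_nnreal w)) hcon
    rw [map_one] at h3
    have h4 : (1 : ℝ) < (WithZeroMulInt.toNNReal (HeightOneSpectrum.absNorm_ne_zero w)
      (w.valuation L y) : ℝ) := by exact_mod_cast h3
    linarith
  obtain ⟨x, hx⟩ := h1
  exact ⟨x, hx⟩

lemma log_two_le_finPart {y : L} (hy : ¬ ∃ x : 𝓞 L, (x : L) = y) :
    Real.log 2 ≤ finPart y := by
  obtain ⟨v, hv⟩ := exists_fin_of_not_integral hy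
  have hy0 : y ≠ 0 := by
    rintro rfl
    exact hy ⟨0, rfl⟩
  have h2 := two_le_of_one_lt v hv
  have hfin : (Function.support fun v : FinitePlace L => posLog (v y)).Finite := by
    refine (FinitePlace.hasFiniteMulSupport hy0).subset fun w hw => ?_
    rw [Function.mem_support] at hw
    rw [Function.mem_mulSupport]
    intro h
    apply hw
    rw [h, Real.posLog_one]
  have h3 := single_le_finsum v hfin (fun _ => Real.posLog_nonneg)
  refine le_trans ?_ h3
  rw [Real.posLog_eq_log (by rw [abs_of_pos (by linarith)]; linarith)]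
  exact Real.log_le_log (by norm_num) h2

/-! ### canonical height -/

/-- canonical height -/
def hhat (f : (𝓞 K)[X]) (x : L) : ℝ := (totGL f x + finPart x) / finrank ℚ L

lemma tendsto_hhat {f : (𝓞 K)[X]} (hf : f.Monic) (hd : 2 ≤ f.natDegree) (x : L) :
    Tendsto (fun n => Height.logHeight₁ (orb f x n) / ((finrank ℚ L : ℝ) * (f.natDegree : ℝ) ^ n))
      atTop (𝓝 (hhat f x)) := by
  have h1 := ((tendsto_arch hf hd x).add_const (finPart x)).div_const (finrank ℚ L : ℝ)
  refine h1.congr fun n => ?_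
  have hq : (0 : ℝ) < (f.natDegree : ℝ) ^ n := by
    have : (0 : ℝ) < f.natDegree := by exact_mod_cast (by omega : 0 < f.natDegree)
    positivity
  have hn : (0 : ℝ) < finrank ℚ L := by exact_mod_cast (finrank_pos : 0 < finrank ℚ L)
  rw [NumberField.logHeight₁_eq]
  have h2 := finPart_orb hf (by omega) x n
  unfold finPart at h2 ⊢
  rw [h2]
  field_simp

end

end Pool.Agent.H420R2
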