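import Mathlib
import Pool.Agent.H420R2.Energy
import Pool.Agent.H420R2.Comb
import Pool.Agent.H420R2.Asym

/-!
Lower bound for the total escape rate of an algebraic integer.
-/

set_option autoImplicit false

namespace Pool.Agent.H420R2

open Polynomial NumberField Module IntermediateField

noncomputable section

variable {K L : Type*} [Field K] [NumberField K] [Field L] [NumberField L] [Algebra K L]

/-- degree sequence -/
def dg (f : (𝓞 K)[X]) (x : 𝓞 L) (i : ℕ) : ℕ := (mp f x i).natDegree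

lemma dg_pos (f : (𝓞 K)[X]) (x : 𝓞 L) (i : ℕ) : 0 < dg f x i :=
  minpoly.natDegree_pos (isInt _)

lemma dg_dvd (f : (𝓞 K)[X]) (x : 𝓞 L) (i : ℕ) : dg f x (i + 1) ∣ dg f x i := by
  have h1 : ∀ n, finrank K K⟮(xs f x n : L)⟯ = dg f x n := by
    intro n
    rw [IntermediateField.adjoin.finrank (Algebra.IsIntegral.isIntegral _)]
    exact natDegree_minpoly_coe (xs f x n)
  rw [← h1, ← h1]
  apply IntermediateField.finrank_dvd_of_le_right
  rw [IntermediateField.adjoin_simple_le_iff]
  have h2 : (xs f x (i + 1) : L) = aeval (xs f x i : L) (f.map (algebraMap (𝓞 K) K)) := by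
    rw [xs_succ, aeval_map_algebraMap]
    exact (aeval_algebraMap_apply L (xs f x i) f).symm
  rw [h2]
  exact IntermediateField.algebra_adjoin_le_adjoin K _
    (Polynomial.aeval_mem_adjoin_singleton _ _)

lemma dg_le {f : (𝓞 K)[X]} (hf : f.Monic) (hd : 2 ≤ f.natDegree) (x : 𝓞 L) (i : ℕ) :
    dg f x i ≤ f.natDegree * dg f x (i + 1) := by
  have h1 : (mp f x (i + 1)).comp f ≠ 0 :=
    ((mp_monic f x (i + 1)).comp hf (by omega)).ne_zero
  have h2 := natDegree_le_of_dvd (mp_dvd_comp f x i) h1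
  rw [natDegree_comp] at h2
  unfold dg
  linarith [mul_comm f.natDegree (mp f x (i + 1)).natDegree]

lemma dg_dvd_finrank (f : (𝓞 K)[X]) (x : 𝓞 L) (i : ℕ) : dg f x i ∣ finrank K L :=
  Dvd.intro _ (cd_mul f x i)

lemma dg_mul_cd (f : (𝓞 K)[X]) (x : 𝓞 L) (i : ℕ) :
    (dg f x i : ℝ) * cd f x i = finrank K L := by
  exact_mod_cast cd_mul f x i

lemma cd_eq_of_dg_eq {f : (𝓞 K)[X]} {x : 𝓞 L} {i j : ℕ} (h : dg f x i = dg f x j) :
    cd f x i = cd f x j := by
  have h1 := cd_mul f x i
  have h2 := cd_mul f x j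
  have h3 := dg_pos f x j
  change dg f x i * cd f x i = _ at h1
  change dg f x j * cd f x j = _ at h2
  rw [h, ← h2] at h1
  exact Nat.eq_of_mul_eq_mul_left h3 h1

lemma finrank_posR (K L : Type*) [Field K] [NumberField K] [Field L] [NumberField L]
    [Algebra K L] : (0 : ℝ) < finrank K L := by
  exact_mod_cast (finrank_pos : 0 < finrank K L)

lemma cd_posR (f : (𝓞 K)[X]) (x : 𝓞 L) (i : ℕ) : (0 : ℝ) < cd f x i := by
  exact_mod_cast cd_pos f x i

lemma dg_posR (f : (𝓞 K)[X]) (x : 𝓞 L) (i : ℕ) : (0 : ℝ) < dg f x i := by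
  exact_mod_cast dg_pos f x i

section Main

variable {P : Ideal (𝓞 K)} {f : (𝓞 K)[X]} {x : 𝓞 L}

/-- the normalised resultants -/
def rr (f : (𝓞 K)[X]) (x : 𝓞 L) (i : ℕ) : ℝ := rho f x i (i + 1) / finrank K L

lemma rr_mono (hinj : Function.Injective (xs f x)) (i : ℕ) : rr f x i ≤ rr f x (i + 1) := by
  unfold rr
  have h1 := rho_mono hinj (i := i) (j := i + 1) (by omega)
  have h2 := finrank_posR K L
  gcongr

/-- the doubling phenomenon -/
lemma rr_double (hinj : Function.Injective (xs f x)) (hnn : ∀ i, 0 ≤ rr f x i) (i : ℕ)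
    (h1 : dg f x (i + 1) = dg f x i) (h2 : dg f x (i + 2) ≠ dg f x (i + 1)) :
    2 * rr f x i ≤ rr f x (i + 1) := by
  have hn := finrank_posR K L
  have hc1 := cd_posR f x (i + 1)
  have hc2 := cd_posR f x (i + 2)
  have e1 : (cd f x (i + 1) : ℝ) * rho f x (i + 1) (i + 2) =
      cd f x (i + 2) * rho f x (i + 2) (i + 1) := rho_symm hinj (by omega)
  have e2 : (cd f x (i + 1) : ℝ) * rho f x (i + 1) i = cd f x i * rho f x i (i + 1) :=
    rho_symm hinj (by omega)
  have e3 : rho f x (i + 1) i ≤ rho f x (i + 2) (i + 1) := rho_mono hinj (by omega)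
  have e4 : cd f x (i + 1) = cd f x i := cd_eq_of_dg_eq h1
  rw [← e4] at e2
  have e5 : rho f x (i + 1) i = rho f x i (i + 1) := mul_left_cancel₀ hc1.ne' e2
  rw [e5] at e3
  have e6 : 2 * (cd f x (i + 1) : ℝ) ≤ cd f x (i + 2) := by
    obtain ⟨e, he⟩ := dg_dvd f x (i + 1)
    have he' : dg f x (i + 1) = dg f x (i + 2) * e := he
    have h0 : e ≠ 0 := by
      rintro rfl
      have := dg_pos f x (i + 1)
      omega
    have h1 : e ≠ 1 := by
      rintro rfl
      rw [mul_one] at he'
      exact h2 he'.symm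
    have h3 : (2 : ℝ) ≤ e := by exact_mod_cast (by omega : 2 ≤ e)
    have h4 := dg_mul_cd f x (i + 1)
    have h5 := dg_mul_cd f x (i + 2)
    have h6 : (dg f x (i + 1) : ℝ) = dg f x (i + 2) * e := by exact_mod_cast he'
    have h7 := dg_posR f x (i + 2)
    rw [h6, ← h5, mul_assoc] at h4
    have h8 : (e : ℝ) * cd f x (i + 1) = cd f x (i + 2) := mul_left_cancel₀ h7.ne' h4
    rw [← h8]
    gcongr
  have hr := hnn i
  have e7 : 0 ≤ rho f x i (i + 1) := by
    unfold rr at hr
    by_contra hcon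
    push Not at hcon
    have := div_neg_of_neg_of_pos hcon hn
    linarith
  have e8 : (cd f x (i + 1) : ℝ) * (2 * rho f x i (i + 1)) ≤
      cd f x (i + 1) * rho f x (i + 1) (i + 2) := by
    rw [e1]
    calc (cd f x (i + 1) : ℝ) * (2 * rho f x i (i + 1)) =
        (2 * cd f x (i + 1)) * rho f x i (i + 1) := by ring
      _ ≤ cd f x (i + 2) * rho f x i (i + 1) := by gcongr
      _ ≤ cd f x (i + 2) * rho f x (i + 2) (i + 1) := by gcongr
  have e9 := le_of_mul_le_mul_left e8 hc1
  unfold rr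
  rw [← mul_div_assoc]
  gcongr

lemma totG_nonneg (hf : f.Monic) (hd : 2 ≤ f.natDegree) : 0 ≤ totG f x := by
  unfold totG
  exact Finset.sum_nonneg fun φ _ => green_nonneg (pol_monic hf _)
    (by rw [pol_natDegree hf]; exact hd) _

lemma bigA_nonneg (f : (𝓞 K)[X]) : 0 ≤ bigA f := by
  unfold bigA
  refine Finset.sum_nonneg fun τ _ => ?_
  have := kap_nonneg (pol τ f)
  positivity

lemma stab_add_le (D : ℕ → ℕ) (i t : ℕ) : (stab D (i + t)).card ≤ (stab D i).card + t := by
  induction t with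
  | zero => simp
  | succ t ih =>
    by_cases h : D (i + t + 1) = D (i + t)
    · rw [← add_assoc, stab_succ_of h]
      omega
    · rw [← add_assoc, stab_succ_of_not h]
      omega

/-- bound for the coefficients in the energy inequality -/
lemma coef_le {κ : ℝ} {b : ℕ} (hd : 2 ≤ f.natDegree)
    (hst : Steps (dg f x) f.natDegree κ b) (j s : ℕ) (hs : (stab (dg f x) j).card ≤ s) :
    (f.natDegree : ℝ) ^ j / cd f x j ≤
      (f.natDegree : ℝ) ^ s * ((f.natDegree : ℝ) ^ b * (finrank K L : ℝ) ^ (κ - 1)) := by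
  set q := f.natDegree with hq
  set n := finrank K L with hn
  have hn0 : (0 : ℝ) < n := finrank_posR K L
  have hk := hst.1
  have hq1 : (1 : ℝ) ≤ q := by exact_mod_cast (by omega : 1 ≤ q)
  have h1 := growth (D := dg f x) (q := q) (by omega) (dg_pos f x) (dg_dvd f x) hst j
  have h2 := dg_mul_cd f x j
  rw [← hn] at h2
  have h3 := cd_posR f x j
  have h4 := dg_posR f x j
  have h5 : (dg f x 0 : ℝ) ≤ n := by
    exact_mod_cast Nat.le_of_dvd finrank_pos (dg_dvd_finrank f x 0)
  have h6 : (1 : ℝ) ≤ dg f x j := by exact_mod_cast dg_pos f x j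
  have h7 : (dg f x 0 : ℝ) / dg f x j ≤ n := by
    rw [div_le_iff₀ h4]
    nlinarith
  have h8 : (f.natDegree : ℝ) ^ j / cd f x j = (q : ℝ) ^ j * dg f x j / n := by
    rw [div_eq_div_iff h3.ne' hn0.ne', ← h2]
    ring
  rw [← hq] at h8
  rw [h8, div_le_iff₀ hn0]
  refine h1.trans ?_
  have h9 : (0 : ℝ) ≤ (dg f x 0 : ℝ) / dg f x j := by positivity
  rw [pow_add, ← mul_assoc]
  gcongr

variable [hP : P.IsMaximal]

lemma rho_run (hP0 : P ≠ ⊥) (hred : FrobRed P f) (hd : 2 ≤ f.natDegree)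
    (hinj : Function.Injective (xs f x)) {i j : ℕ} (hij : i < j) (t : ℕ)
    (hst : ∀ u < t, dg f x (i + u + 1) = dg f x (i + u)) :
    rho f x i j + t * ((finrank K L : ℝ) * Real.log (Ideal.absNorm P)) ≤
      rho f x (i + t) (j + t) := by
  induction t with
  | zero => simp
  | succ t ih =>
    have h1 := ih fun u hu => hst u (by omega)
    have h2 := rho_stable hP0 hred hd hinj (i := i + t) (j := j + t) (by omega)
      (hst t (by omega))
    rw [← add_assoc, ← add_assoc]
    push_cast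
    linarith

lemma log_absNorm_pos (hP0 : P ≠ ⊥) : 0 < Real.log (Ideal.absNorm P) := by
  apply Real.log_pos
  have h0 : Ideal.absNorm P ≠ 0 := fun h => hP0 (Ideal.absNorm_eq_zero_iff.mp h)
  have h1 : Ideal.absNorm P ≠ 1 := fun h => hP.ne_top (Ideal.absNorm_eq_one_iff.mp h)
  exact_mod_cast (by omega : 1 < Ideal.absNorm P)

/-- consequence of a long run of equal degrees -/
lemma case_run {κ : ℝ} {b : ℕ} (hf : f.Monic) (hP0 : P ≠ ⊥) (hred : FrobRed P f)
    (hd : 2 ≤ f.natDegree) (hst : Steps (dg f x) f.natDegree κ b)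
    (hinj : Function.Injective (xs f x)) {i M k₀ : ℕ} (hM : 1 ≤ M)
    (hrun : ∀ t < 2 * M, dg f x (i + t + 1) = dg f x (i + t))
    (hs : (stab (dg f x) i).card ≤ 2 * M * k₀) :
    M * ((M : ℝ) - 1) * Real.log (Ideal.absNorm P) ≤
      2 * bigA f * (1 + Real.log M + Real.log (finrank K L)) +
      2 * M * ((f.natDegree : ℝ) ^ (2 * M * (k₀ + 1)) *
        ((f.natDegree : ℝ) ^ b * (finrank K L : ℝ) ^ (κ - 1))) * totG f x := by
  set n := finrank K L with hn
  set Q : ℝ := (f.natDegree : ℝ) ^ (2 * M * (k₀ + 1)) *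
    ((f.natDegree : ℝ) ^ b * (n : ℝ) ^ (κ - 1)) with hQ
  set ell : ℝ := Real.log (Ideal.absNorm P) with hell
  have hn0 : (0 : ℝ) < n := finrank_posR K L
  have hn1 : (1 : ℝ) ≤ n := by exact_mod_cast (finrank_pos : 0 < finrank K L)
  have hl : 0 < ell := log_absNorm_pos hP0
  have hM' : (1 : ℝ) ≤ M := by exact_mod_cast hM
  have hdg : ∀ t ≤ 2 * M, dg f x (i + t) = dg f x i := by
    intro t ht
    induction t with
    | zero => rfl
    | succ t ih =>
      rw [← add_assoc, hrun t (by omega)]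
      exact ih (by omega)
  set S := Finset.Ico (i + M) (i + 2 * M) with hS
  have hScard : S.card = M := by
    rw [hS, Nat.card_Ico]
    omega
  have hdgS : ∀ a ∈ S, dg f x a = dg f x i := by
    intro a ha
    rw [hS, Finset.mem_Ico] at ha
    obtain ⟨t, rfl⟩ := Nat.exists_eq_add_of_le (by omega : i ≤ a)
    exact hdg t (by omega)
  have hpair1 : ∀ a ∈ S, ∀ b ∈ S, b < a → M * (n * ell) ≤ rho f x b a := by
    intro a ha b hb hab
    rw [hS, Finset.mem_Ico] at ha hb
    have h1 := rho_run hP0 hred hd hinj (i := b - M) (j := a - M) (by omega) M (by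
      intro u hu
      obtain ⟨v, hv⟩ := Nat.exists_eq_add_of_le (by omega : i ≤ b - M + u)
      rw [hv]
      exact hrun v (by omega))
    rw [Nat.sub_add_cancel (by omega), Nat.sub_add_cancel (by omega)] at h1
    have h2 := rho_base hP0 hred (by omega) hinj (i := b - M) (j := a - M) (by omega)
    have h3 : 0 < (n : ℝ) * ell := by positivity
    linarith
  have hpair : ∀ a ∈ S, ∀ b ∈ S.erase a, M * (n * ell) / cd f x i ≤
      rho f x b a / cd f x a := by
    intro a ha b hb
    have hb' := Finset.mem_of_mem_erase hb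
    have hne := Finset.ne_of_mem_erase hb
    have hca : cd f x a = cd f x i := cd_eq_of_dg_eq (hdgS a ha)
    have hcb : cd f x b = cd f x i := cd_eq_of_dg_eq (hdgS b hb')
    rw [hca]
    have hc := cd_posR f x i
    have h1 : M * (n * ell) ≤ rho f x b a := by
      rcases lt_or_gt_of_ne hne with h | h
      · exact hpair1 a ha b hb' h
      · have h2 := rho_symm hinj hne
        rw [hca, hcb] at h2
        rw [mul_left_cancel₀ hc.ne' h2]
        exact hpair1 b hb' a ha h
    gcongr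
  have hmain := main_ineq hf hd hinj S
  have hm : (∑ a ∈ S, (mp f x a).natDegree : ℕ) = M * dg f x i := by
    change ∑ a ∈ S, dg f x a = M * dg f x i
    rw [Finset.sum_congr rfl hdgS, Finset.sum_const, hScard, smul_eq_mul]
  rw [hm] at hmain
  have hlhs : (M : ℝ) * (((M : ℝ) - 1) * (M * (n * ell) / cd f x i)) ≤
      ∑ a ∈ S, ∑ b ∈ S.erase a, rho f x b a / cd f x a := by
    calc (M : ℝ) * (((M : ℝ) - 1) * (M * (n * ell) / cd f x i)) =
        ∑ a ∈ S, ∑ b ∈ S.erase a, M * (n * ell) / cd f x i := by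
          rw [Finset.sum_congr rfl fun a ha => by
            rw [Finset.sum_const, Finset.card_erase_of_mem ha, hScard]]
          rw [Finset.sum_const, hScard, nsmul_eq_mul, nsmul_eq_mul, Nat.cast_sub hM,
            Nat.cast_one]
      _ ≤ _ := Finset.sum_le_sum fun a ha => Finset.sum_le_sum fun b hb => hpair a ha b hb
  have hD := dg_posR f x i
  have hc := cd_posR f x i
  have hnc : (n : ℝ) * ell / cd f x i = dg f x i * ell := by
    rw [div_eq_iff hc.ne', ← dg_mul_cd f x i]
    ring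
  have hcoef : ∑ a ∈ S, (f.natDegree : ℝ) ^ a * totG f x / cd f x a ≤ M * (Q * totG f x) := by
    calc ∑ a ∈ S, (f.natDegree : ℝ) ^ a * totG f x / cd f x a ≤ ∑ a ∈ S, Q * totG f x := by
          refine Finset.sum_le_sum fun a ha => ?_
          rw [hS, Finset.mem_Ico] at ha
          obtain ⟨t, rfl⟩ := Nat.exists_eq_add_of_le (by omega : i ≤ a)
          have h1 := stab_add_le (dg f x) i t
          have h2 := coef_le (x := x) hd hst (i + t) (2 * M * (k₀ + 1)) (by
            rw [mul_add, mul_one]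
            omega)
          have h3 := totG_nonneg (x := x) hf hd
          calc (f.natDegree : ℝ) ^ (i + t) * totG f x / cd f x (i + t) =
              ((f.natDegree : ℝ) ^ (i + t) / cd f x (i + t)) * totG f x := by ring
            _ ≤ Q * totG f x := by gcongr
      _ = M * (Q * totG f x) := by
          rw [Finset.sum_const, hScard, nsmul_eq_mul]
  have hlog : Real.log ((M * dg f x i : ℕ) : ℝ) ≤ Real.log M + Real.log n := by
    push_cast
    rw [Real.log_mul (by positivity) hD.ne']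
    have h5 : (dg f x i : ℝ) ≤ n := by
      exact_mod_cast Nat.le_of_dvd finrank_pos (dg_dvd_finrank f x i)
    have := Real.log_le_log hD h5
    linarith
  have hA := bigA_nonneg f
  have hfin : (M : ℝ) * (((M : ℝ) - 1) * (M * (n * ell) / cd f x i)) ≤
      2 * ((M * dg f x i : ℕ) * (bigA f * (1 + (Real.log M + Real.log n))) +
        (M * dg f x i : ℕ) * (M * (Q * totG f x))) := by
    refine hlhs.trans (hmain.trans ?_)
    gcongr
  have h1 : (M : ℝ) * (((M : ℝ) - 1) * (M * (n * ell) / cd f x i)) =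
      (M * dg f x i : ℝ) * (M * ((M : ℝ) - 1) * ell) := by
    rw [show (M : ℝ) * (n * ell) / cd f x i = M * ((n : ℝ) * ell / cd f x i) by ring, hnc]
    ring
  have h2 : 2 * (((M * dg f x i : ℕ) : ℝ) * (bigA f * (1 + (Real.log M + Real.log n))) +
        ((M * dg f x i : ℕ) : ℝ) * (M * (Q * totG f x))) =
      (M * dg f x i : ℝ) * (2 * bigA f * (1 + Real.log M + Real.log n) +
        2 * M * Q * totG f x) := by
    push_cast
    ring
  rw [h1, h2] at hfin
  exact le_of_mul_le_mul_left hfin (by positivity)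

/-- consequence of a large resultant -/
lemma case_large {κ : ℝ} {b : ℕ} (hf : f.Monic) (hP0 : P ≠ ⊥) (hd : 2 ≤ f.natDegree)
    (hst : Steps (dg f x) f.natDegree κ b)
    (hinj : Function.Injective (xs f x)) {i M k₀ : ℕ} (hM : 1 ≤ M)
    (hlarge : 2 ^ k₀ * Real.log (Ideal.absNorm P) ≤ rr f x i)
    (hs : (stab (dg f x) i).card ≤ 2 * M * k₀) :
    2 ^ k₀ * Real.log (Ideal.absNorm P) ≤
      (f.natDegree + 1) * (bigA f * (1 + Real.log (2 * finrank K L)) +
      (1 + f.natDegree) * ((f.natDegree : ℝ) ^ (2 * M * (k₀ + 1)) *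
        ((f.natDegree : ℝ) ^ b * (finrank K L : ℝ) ^ (κ - 1))) * totG f x) := by
  set n := finrank K L with hn
  set q := f.natDegree with hq
  set Q : ℝ := (q : ℝ) ^ (2 * M * (k₀ + 1)) * ((q : ℝ) ^ b * (n : ℝ) ^ (κ - 1)) with hQ
  set ell : ℝ := Real.log (Ideal.absNorm P) with hell
  have hn0 : (0 : ℝ) < n := finrank_posR K L
  have hn1 : (1 : ℝ) ≤ n := by exact_mod_cast (finrank_pos : 0 < finrank K L)
  have hl : 0 < ell := log_absNorm_pos hP0
  have hc0 := cd_posR f x i
  have hc1 := cd_posR f x (i + 1)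
  have hD0 := dg_posR f x i
  have hD1 := dg_posR f x (i + 1)
  have hA := bigA_nonneg f
  have hG := totG_nonneg (x := x) hf hd
  have hmain := main_ineq hf hd hinj ({i, i + 1} : Finset ℕ)
  have hne : i ≠ i + 1 := by omega
  have he1 : ({i, i + 1} : Finset ℕ).erase i = {i + 1} := by
    ext a
    simp only [Finset.mem_erase, Finset.mem_insert, Finset.mem_singleton]
    omega
  have he2 : ({i, i + 1} : Finset ℕ).erase (i + 1) = {i} := by
    ext a
    simp only [Finset.mem_erase, Finset.mem_insert, Finset.mem_singleton]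
    omega
  rw [Finset.sum_pair hne, Finset.sum_pair hne, Finset.sum_pair hne, he1, he2,
    Finset.sum_singleton, Finset.sum_singleton] at hmain
  change rho f x (i + 1) i / cd f x i + rho f x i (i + 1) / cd f x (i + 1) ≤
    2 * (((dg f x i + dg f x (i + 1) : ℕ) : ℝ) *
      (bigA f * (1 + Real.log ((dg f x i + dg f x (i + 1) : ℕ) : ℝ))) +
      ((dg f x i + dg f x (i + 1) : ℕ) : ℝ) * ((q : ℝ) ^ i * totG f x / cd f x i +
        (q : ℝ) ^ (i + 1) * totG f x / cd f x (i + 1))) at hmain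
  have hsy := rho_symm hinj hne
  have h1 : rho f x (i + 1) i / cd f x i = rho f x i (i + 1) / cd f x (i + 1) := by
    rw [div_eq_div_iff hc0.ne' hc1.ne']
    linarith
  have hrho : 2 ^ k₀ * ell * n ≤ rho f x i (i + 1) := by
    unfold rr at hlarge
    rwa [le_div_iff₀ hn0] at hlarge
  have h2 : 2 ^ k₀ * ell * dg f x (i + 1) ≤ rho f x i (i + 1) / cd f x (i + 1) := by
    rw [le_div_iff₀ hc1, mul_assoc, dg_mul_cd f x (i + 1)]
    exact hrho
  set m : ℕ := dg f x i + dg f x (i + 1) with hm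
  have hm1 : (m : ℝ) ≤ (q + 1) * dg f x (i + 1) := by
    have h3 : (dg f x i : ℝ) ≤ q * dg f x (i + 1) := by
      exact_mod_cast dg_le hf hd x i
    rw [hm]
    push_cast
    linarith
  have hm0 : (0 : ℝ) < m := by
    rw [hm]
    push_cast
    positivity
  have hm2 : (m : ℝ) ≤ 2 * n := by
    have h3 : (dg f x i : ℝ) ≤ n := by
      exact_mod_cast Nat.le_of_dvd finrank_pos (dg_dvd_finrank f x i)
    have h4 : (dg f x (i + 1) : ℝ) ≤ n := by
      exact_mod_cast Nat.le_of_dvd finrank_pos (dg_dvd_finrank f x (i + 1))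
    rw [hm]
    push_cast
    linarith
  have hlog : Real.log m ≤ Real.log (2 * n) := Real.log_le_log hm0 hm2
  have hlog0 : 0 ≤ Real.log (2 * n) := Real.log_nonneg (by linarith)
  have hq1 : (1 : ℝ) ≤ q := by exact_mod_cast (by omega : 1 ≤ q)
  have hco0 : (q : ℝ) ^ i / cd f x i ≤ Q := coef_le (x := x) hd hst i (2 * M * (k₀ + 1)) (by
    rw [mul_add, mul_one]
    omega)
  have hco1 : (q : ℝ) ^ (i + 1) / cd f x (i + 1) ≤ Q := coef_le (x := x) hd hst (i + 1)
    (2 * M * (k₀ + 1)) (by
      have := stab_add_le (dg f x) i 1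
      rw [mul_add, mul_one]
      omega)
  have hQ0 : 0 ≤ Q := le_trans (by positivity) hco0
  have h5 : (q : ℝ) ^ i * totG f x / cd f x i +
        (q : ℝ) ^ (i + 1) * totG f x / cd f x (i + 1) ≤ (1 + q) * Q * totG f x := by
    calc (q : ℝ) ^ i * totG f x / cd f x i + (q : ℝ) ^ (i + 1) * totG f x / cd f x (i + 1) =
        ((q : ℝ) ^ i / cd f x i) * totG f x +
          ((q : ℝ) ^ (i + 1) / cd f x (i + 1)) * totG f x := by ring
      _ ≤ Q * totG f x + Q * totG f x := by gcongr
      _ ≤ Q * totG f x + q * (Q * totG f x) := by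
          have : 0 ≤ Q * totG f x := by positivity
          nlinarith
      _ = (1 + q) * Q * totG f x := by ring
  have h6 : (m : ℝ) * (bigA f * (1 + Real.log m)) + m * ((q : ℝ) ^ i * totG f x / cd f x i +
        (q : ℝ) ^ (i + 1) * totG f x / cd f x (i + 1)) ≤
      ((q + 1) * dg f x (i + 1)) * (bigA f * (1 + Real.log (2 * n)) +
        (1 + q) * Q * totG f x) := by
    rw [← mul_add]
    gcongr
  have h7 : 2 * (2 ^ k₀ * ell * dg f x (i + 1)) ≤
      2 * (((q + 1) * dg f x (i + 1)) * (bigA f * (1 + Real.log (2 * n)) +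
        (1 + q) * Q * totG f x)) := by
    rw [h1] at hmain
    linarith
  have h8 : (2 ^ k₀ * ell) * dg f x (i + 1) ≤
      ((q + 1) * (bigA f * (1 + Real.log (2 * n)) +
        (1 + q) * Q * totG f x)) * dg f x (i + 1) := by
    linarith
  exact le_of_mul_le_mul_right h8 hD1

end Main

/-- **Lower bound for the total escape rate** -/
theorem totG_lower (P : Ideal (𝓞 K)) [hP : P.IsMaximal] (hP0 : P ≠ ⊥) (f : (𝓞 K)[X])
    (hf : f.Monic) (hd : 2 ≤ f.natDegree) (hred : FrobRed P f) {ε : ℝ} (hε : 0 < ε) (b : ℕ) :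
    ∃ C : ℝ, 0 < C ∧ ∀ (L : Type*) [Field L] [NumberField L] [Algebra K L] (x : 𝓞 L) (κ : ℝ),
      Function.Injective (xs f x) → Steps (dg f x) f.natDegree κ b →
      1 ≤ C * (finrank K L : ℝ) ^ (κ - 1 + ε) * totG f x := by
  obtain ⟨C, hC, hCn⟩ := asym (q := f.natDegree) (log_absNorm_pos hP0) (bigA_nonneg f) hε
    (by omega)
  have hq1 : (2 : ℝ) ≤ f.natDegree := by exact_mod_cast hd
  refine ⟨C * (f.natDegree : ℝ) ^ b, by positivity, fun L _ _ _ x κ hinj hst => ?_⟩
  obtain ⟨M, k₀, hM, ha, hb, hc⟩ := hCn (finrank K L) finrank_pos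
  have hn0 : (0 : ℝ) < finrank K L := finrank_posR K L
  have hl := log_absNorm_pos hP0
  have hr0 : Real.log (Ideal.absNorm P) ≤ rr f x 0 := by
    have := rho_base hP0 hred (by omega) hinj (i := 0) (j := 0 + 1) (by omega)
    unfold rr
    rw [le_div_iff₀ hn0]
    linarith
  have hmono : ∀ i, rr f x i ≤ rr f x (i + 1) := rr_mono hinj
  have hnn : ∀ i, 0 ≤ rr f x i := by
    intro i
    induction i with
    | zero => linarith
    | succ i ih => exact ih.trans (hmono i)
  obtain ⟨i, hi, hs⟩ := select (dg_pos f x) (dg_dvd f x) (N := 2 * M) (k₀ := k₀) hr0 hl.le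
    hmono (fun i h1 h2 => rr_double hinj hnn i h1 h2)
  set Q : ℝ := (f.natDegree : ℝ) ^ (2 * M * (k₀ + 1)) *
    ((f.natDegree : ℝ) ^ b * (finrank K L : ℝ) ^ (κ - 1)) with hQ
  have hM' : (1 : ℝ) ≤ M := by exact_mod_cast hM
  have hG := totG_nonneg (x := x) hf hd
  have hQ0 : 0 ≤ Q := by positivity
  have hQG : 0 ≤ Q * totG f x := by positivity
  have key : 1 ≤ (1 + f.natDegree) * (2 * M) * Q * totG f x := by
    rcases hi with hi | hi
    · have h1 := case_run hf hP0 hred hd hst hinj hM hi hs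
      rw [← hQ] at h1
      have h2 : 1 ≤ 2 * M * (Q * totG f x) := by linarith
      have h3 : 2 * M * (Q * totG f x) ≤ (1 + f.natDegree) * (2 * M * (Q * totG f x)) := by
        have : 0 ≤ 2 * M * (Q * totG f x) := by positivity
        nlinarith
      linarith
    · have h1 := case_large hf hP0 hd hst hinj hM hi hs
      rw [← hQ] at h1
      have h2 : ((f.natDegree : ℝ) + 1) * (bigA f * (1 + Real.log (2 * finrank K L)) + 1) ≤
          (f.natDegree + 1) * (bigA f * (1 + Real.log (2 * finrank K L)) +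
            (1 + f.natDegree) * Q * totG f x) := hb.trans h1
      have h3 := le_of_mul_le_mul_left h2 (by positivity)
      have h4 : 1 ≤ (1 + f.natDegree) * (Q * totG f x) := by linarith
      have h5 : (1 + f.natDegree) * (Q * totG f x) ≤
          (2 * M) * ((1 + f.natDegree) * (Q * totG f x)) := by
        have : 0 ≤ (1 + (f.natDegree : ℝ)) * (Q * totG f x) := by positivity
        nlinarith
      linarith
  have h1 : (1 + f.natDegree) * (2 * M) * Q ≤
      C * (f.natDegree : ℝ) ^ b * (finrank K L : ℝ) ^ (κ - 1 + ε) := by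
    rw [Real.rpow_add hn0, hQ]
    calc (1 + (f.natDegree : ℝ)) * (2 * M) * ((f.natDegree : ℝ) ^ (2 * M * (k₀ + 1)) *
        ((f.natDegree : ℝ) ^ b * (finrank K L : ℝ) ^ (κ - 1))) =
        ((1 + (f.natDegree : ℝ)) * (2 * M) * (f.natDegree : ℝ) ^ (2 * M * (k₀ + 1))) *
        ((f.natDegree : ℝ) ^ b * (finrank K L : ℝ) ^ (κ - 1)) := by ring
      _ ≤ (C * (finrank K L : ℝ) ^ ε) *
        ((f.natDegree : ℝ) ^ b * (finrank K L : ℝ) ^ (κ - 1)) := by gcongr
      _ = _ := by ring
  calc 1 ≤ (1 + f.natDegree) * (2 * M) * Q * totG f x := key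
    _ ≤ _ := by gcongr

end

end Pool.Agent.H420R2
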