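import Mathlib
import Pool.Agent.H420R2.Lower

/-!
The degree sequence for iterates of `X ^ (p ^ r) + c`.
-/

set_option autoImplicit false

namespace Pool.Agent.H420R2

open Polynomial NumberField Module IntermediateField

noncomputable section

section Field

variable {K L : Type*} [Field K] [Field L] [Algebra K L]

/-- the field contains a primitive `p`-th root of unity -/
def HasRoot (p : ℕ) (F : IntermediateField K L) : Prop := ∃ ζ ∈ F, IsPrimitiveRoot ζ p

/-- the relation between the fields generated by two consecutive points -/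
def Rel (K : Type*) {L : Type*} [Field K] [Field L] [Algebra K L] (p : ℕ) (x y : L) : Prop :=
  K⟮y⟯ ≤ K⟮x⟯ ∧ ((HasRoot p K⟮x⟯ → HasRoot p K⟮y⟯) →
    finrank K K⟮y⟯ = finrank K K⟮x⟯ ∨ p * finrank K K⟮y⟯ ≤ finrank K K⟮x⟯)

lemma HasRoot.mono {p : ℕ} {F E : IntermediateField K L} (h : F ≤ E) (hF : HasRoot p F) :
    HasRoot p E := by
  obtain ⟨ζ, h1, h2⟩ := hF
  exact ⟨ζ, h h1, h2⟩

lemma Rel.trans [FiniteDimensional K L] {p : ℕ} {x y z : L} (h1 : Rel K p x y)
    (h2 : Rel K p y z) : Rel K p x z := by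
  refine ⟨h2.1.trans h1.1, fun h => ?_⟩
  have hxy : HasRoot p K⟮x⟯ → HasRoot p K⟮y⟯ := fun hx => (h hx).mono h2.1
  have hyz : HasRoot p K⟮y⟯ → HasRoot p K⟮z⟯ := fun hy => h (hy.mono h1.1)
  have h3 : finrank K K⟮z⟯ ≤ finrank K K⟮y⟯ := IntermediateField.finrank_le_of_le_right h2.1
  have h4 : finrank K K⟮y⟯ ≤ finrank K K⟮x⟯ := IntermediateField.finrank_le_of_le_right h1.1
  rcases h1.2 hxy with h5 | h5
  · rw [← h5]
    exact h2.2 hyz
  · right
    exact (Nat.mul_le_mul_left p h3).trans h5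

lemma Rel.refl (p : ℕ) (x : L) : Rel K p x x := ⟨le_rfl, fun _ => Or.inl rfl⟩

lemma Rel.add (p : ℕ) (x : L) (c : K) : Rel K p x (x + algebraMap K L c) := by
  have h1 : K⟮x + algebraMap K L c⟯ ≤ K⟮x⟯ := by
    rw [adjoin_simple_le_iff]
    exact add_mem (mem_adjoin_simple_self K x) (IntermediateField.algebraMap_mem _ c)
  have h2 : K⟮x⟯ ≤ K⟮x + algebraMap K L c⟯ := by
    rw [adjoin_simple_le_iff]
    have h3 : x = (x + algebraMap K L c) - algebraMap K L c := by ring
    have h4 : (x + algebraMap K L c) - algebraMap K L c ∈ K⟮x + algebraMap K L c⟯ :=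
      sub_mem (mem_adjoin_simple_self K _) (IntermediateField.algebraMap_mem _ c)
    rwa [← h3] at h4
  have h3 := le_antisymm h1 h2
  refine ⟨h1, fun _ => Or.inl ?_⟩
  rw [h3]

lemma Rel.pow [FiniteDimensional K L] {p : ℕ} (hp : p.Prime) (y : L) : Rel K p y (y ^ p) := by
  have hle : K⟮y ^ p⟯ ≤ K⟮y⟯ := by
    rw [adjoin_simple_le_iff]
    exact pow_mem (mem_adjoin_simple_self K y) p
  refine ⟨hle, fun hroot => ?_⟩
  have hmem : y ∈ K⟮y ^ p⟯ → finrank K K⟮y ^ p⟯ = finrank K K⟮y⟯ := by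
    intro h
    rw [le_antisymm hle (by rwa [adjoin_simple_le_iff])]
  by_cases hex : ∃ b : K⟮y ^ p⟯, b ^ p = ⟨y ^ p, mem_adjoin_simple_self K _⟩
  · left
    obtain ⟨b, hb⟩ := hex
    have hb' : (b : L) ^ p = y ^ p := congrArg Subtype.val hb
    apply hmem
    by_cases hy : y = 0
    · rw [hy]
      exact zero_mem _
    have hb0 : (b : L) ≠ 0 := by
      intro h
      rw [h, zero_pow hp.ne_zero] at hb'
      exact hy (pow_eq_zero_iff hp.ne_zero |>.mp hb'.symm)
    set ζ : L := y / b with hζ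
    have h1 : ζ ^ p = 1 := by
      rw [hζ, div_pow, hb', div_self (pow_ne_zero _ hy)]
    have h2 : y = ζ * b := by
      rw [hζ]
      field_simp
    by_cases h3 : ζ = 1
    · have h4 : y = (b : L) := h2.trans (by rw [h3, one_mul])
      have h5 := b.2
      rwa [← h4] at h5
    · have h4 : IsPrimitiveRoot ζ p := by
        have : Fact p.Prime := ⟨hp⟩
        rw [← orderOf_eq_prime h1 h3]
        exact IsPrimitiveRoot.orderOf ζ
      have h5 : ζ ∈ K⟮y⟯ := div_mem (mem_adjoin_simple_self K y) (hle b.2)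
      obtain ⟨ξ, h6, h7⟩ := hroot ⟨ζ, h5, h4⟩
      have : NeZero p := ⟨hp.ne_zero⟩
      obtain ⟨i, -, hi⟩ := h7.eq_pow_of_pow_eq_one h1
      have h8 : ξ ^ i * (b : L) ∈ K⟮y ^ p⟯ := mul_mem (pow_mem h6 i) b.2
      rw [hi, ← h2] at h8
      exact h8
  · right
    push Not at hex
    set a : K⟮y ^ p⟯ := ⟨y ^ p, mem_adjoin_simple_self K _⟩ with ha
    have hirr := X_pow_sub_C_irreducible_of_prime hp hex
    have hroot' : aeval y (X ^ p - C a) = 0 := by
      simp [ha, IntermediateField.algebraMap_apply]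
    have hmonic : (X ^ p - C a).Monic := monic_X_pow_sub_C a hp.ne_zero
    have hmin : minpoly K⟮y ^ p⟯ y = X ^ p - C a :=
      (minpoly.eq_of_irreducible_of_monic hirr hroot' hmonic).symm
    have h1 : finrank K⟮y ^ p⟯ (extendScalars hle) = p := by
      rw [extendScalars_adjoin, adjoin.finrank (Algebra.IsIntegral.isIntegral y), hmin,
        natDegree_X_pow_sub_C]
    have h2 := finrank_bot_mul_relfinrank hle
    rw [relfinrank_eq_finrank_of_le hle, h1] at h2
    rw [mul_comm]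
    exact h2.le

lemma Rel.pow_pow [FiniteDimensional K L] {p : ℕ} (hp : p.Prime) (r : ℕ) (y : L) :
    Rel K p y (y ^ (p ^ r)) := by
  induction r with
  | zero =>
    rw [pow_zero, pow_one]
    exact Rel.refl p y
  | succ r ih =>
    rw [pow_succ, pow_mul]
    exact ih.trans (Rel.pow hp _)

end Field

variable {K L : Type*} [Field K] [NumberField K] [Field L] [NumberField L] [Algebra K L]

lemma finrank_adjoin_eq (z : 𝓞 L) : finrank K K⟮(z : L)⟯ = (minpoly (𝓞 K) z).natDegree := by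
  rw [IntermediateField.adjoin.finrank (Algebra.IsIntegral.isIntegral _)]
  exact natDegree_minpoly_coe z

/-- the unicritical polynomial of prime power degree -/
def uni (p r : ℕ) (c : 𝓞 K) : (𝓞 K)[X] := X ^ (p ^ r) + C c

lemma rel_uni {p r : ℕ} (hp : p.Prime) (c : 𝓞 K) (z : 𝓞 L) :
    Rel K p (z : L) ((aeval z (uni p r c) : 𝓞 L) : L) := by
  have h1 : ((aeval z (uni p r c) : 𝓞 L) : L) = (z : L) ^ (p ^ r) + algebraMap K L (c : K) := by
    simp only [uni, map_add, map_pow, aeval_X, aeval_C]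
    rfl
  rw [h1]
  exact (Rel.pow_pow hp r _).trans (Rel.add p _ _)

omit [NumberField K] [NumberField L] in
lemma aeval_comp_iterate (u : (𝓞 K)[X]) (s : ℕ) (z : 𝓞 L) :
    aeval z (u.comp^[s] X) = (fun y : 𝓞 L => aeval y u)^[s] z := by
  induction s with
  | zero => simp
  | succ s ih =>
    rw [Function.iterate_succ_apply', Function.iterate_succ_apply', aeval_comp, ih]

lemma rel_iter {p r : ℕ} (hp : p.Prime) (c : 𝓞 K) (s : ℕ) (z : 𝓞 L) :
    Rel K p (z : L) ((aeval z ((uni p r c).comp^[s] X) : 𝓞 L) : L) := by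
  rw [aeval_comp_iterate]
  induction s with
  | zero => exact Rel.refl p _
  | succ s ih =>
    rw [Function.iterate_succ_apply']
    exact ih.trans (rel_uni hp c _)

lemma steps_uni {p r s : ℕ} (hp : p.Prime) (hr : 1 ≤ r) (hs : 1 ≤ s) (c : 𝓞 K) (x : 𝓞 L) :
    Steps (dg ((uni p r c).comp^[s] X) x) (p ^ (r * s)) ((r * s : ℕ) : ℝ) 1 := by
  set f := (uni p r c).comp^[s] X with hf
  set F : ℕ → IntermediateField K L := fun i => K⟮(xs f x i : L)⟯ with hF
  have hrel : ∀ i, Rel K p (xs f x i : L) (xs f x (i + 1) : L) := by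
    intro i
    rw [xs_succ, hf]
    exact rel_iter hp c s _
  have hanti : ∀ i j, i ≤ j → F j ≤ F i := by
    intro i j hij
    induction j, hij using Nat.le_induction with
    | base => exact le_rfl
    | succ j _ ih => exact (hrel j).1.trans ih
  refine ⟨by exact_mod_cast Nat.mul_le_mul hr hs, ?_⟩
  classical
  have hB : ∃ B : Finset ℕ, B.card ≤ 1 ∧ ∀ i, i ∉ B → (HasRoot p (F i) → HasRoot p (F (i + 1))) := by
    by_cases h : ∃ i, HasRoot p (F i) ∧ ¬ HasRoot p (F (i + 1))
    · obtain ⟨i, h1, h2⟩ := h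
      refine ⟨{i}, by simp, fun j hj hj1 => ?_⟩
      rw [Finset.mem_singleton] at hj
      by_contra hj2
      rcases lt_or_gt_of_ne hj with h3 | h3
      · exact hj2 (h1.mono (hanti (j + 1) i h3))
      · exact h2 (hj1.mono (hanti (i + 1) j h3))
    · push Not at h
      exact ⟨∅, by simp, fun i _ => h i⟩
  obtain ⟨B, hB1, hB2⟩ := hB
  refine ⟨B, hB1, fun i hi => ?_⟩
  have h1 := (hrel i).2 (hB2 i hi)
  rw [finrank_adjoin_eq, finrank_adjoin_eq] at h1
  change dg f x (i + 1) = dg f x i ∨ p * dg f x (i + 1) ≤ dg f x i at h1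
  rcases h1 with h1 | h1
  · exact Or.inl h1
  · right
    rw [Real.rpow_natCast, Real.rpow_natCast]
    have h2 : (p : ℝ) * dg f x (i + 1) ≤ dg f x i := by exact_mod_cast h1
    calc ((p ^ (r * s) : ℕ) : ℝ) * (dg f x (i + 1) : ℝ) ^ (r * s) =
        ((p : ℝ) * dg f x (i + 1)) ^ (r * s) := by
          push_cast
          rw [mul_pow]
      _ ≤ (dg f x i : ℝ) ^ (r * s) := by gcongr

end

end Pool.Agent.H420R2
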