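import Mathlib
import Pool.Agent.H420R2.Heights
import Pool.Agent.H420R2.Kummer

/-!
Final assembly: from iterates to the polynomial itself.
-/

set_option autoImplicit false

namespace Pool.Agent.H420R2

open Polynomial NumberField Module Filter Topology

noncomputable section

variable {K L : Type*} [Field K] [NumberField K] [Field L] [NumberField L] [Algebra K L]

omit [NumberField K] in
lemma iter_monic {f : (𝓞 K)[X]} (hf : f.Monic) (hd : 2 ≤ f.natDegree) (s : ℕ) :
    (f.comp^[s] X).Monic := by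
  induction s with
  | zero => exact monic_X
  | succ s ih =>
    rw [Function.iterate_succ_apply']
    apply hf.comp ih
    rw [natDegree_iterate_comp, natDegree_X, mul_one]
    positivity

omit [NumberField K] in
lemma iter_natDegree (f : (𝓞 K)[X]) (s : ℕ) :
    (f.comp^[s] X).natDegree = f.natDegree ^ s := by
  rw [natDegree_iterate_comp, natDegree_X, mul_one]

omit [NumberField K] [NumberField L] in
lemma aeval_iter (f : (𝓞 K)[X]) (s : ℕ) (y : L) :
    aeval y (f.comp^[s] X) = (fun z : L => aeval z f)^[s] y := by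
  induction s with
  | zero => simp
  | succ s ih =>
    rw [Function.iterate_succ_apply', Function.iterate_succ_apply', aeval_comp, ih]

omit [NumberField K] [NumberField L] in
lemma orb_iter (f : (𝓞 K)[X]) (s : ℕ) (x : L) (n : ℕ) :
    orb (f.comp^[s] X) x n = orb f x (s * n) := by
  induction n with
  | zero => rfl
  | succ n ih =>
    rw [orb_succ, ih, aeval_iter, mul_add, mul_one, add_comm]
    unfold orb
    rw [Function.iterate_add_apply]

lemma hhat_iter {f : (𝓞 K)[X]} (hf : f.Monic) (hd : 2 ≤ f.natDegree) {s : ℕ} (hs : 1 ≤ s)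
    (x : L) : hhat (f.comp^[s] X) x = hhat f x := by
  have h1 := tendsto_hhat (iter_monic hf hd s) (by
    rw [iter_natDegree]
    calc 2 ≤ f.natDegree := hd
      _ ≤ f.natDegree ^ s := Nat.le_self_pow (by omega) _) x
  have h2 := (tendsto_hhat hf hd x).comp
    ((strictMono_mul_left_of_pos (show 0 < s by omega)).tendsto_atTop)
  refine tendsto_nhds_unique h1 (h2.congr fun n => ?_)
  simp only [Function.comp_apply]
  rw [orb_iter, iter_natDegree]
  push_cast
  rw [pow_mul]

omit [NumberField K] [NumberField L] in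
lemma injective_of_infinite {f : (𝓞 K)[X]} {x : L}
    (h : (Set.range fun n : ℕ => orb f x n).Infinite) : Function.Injective (orb f x) := by
  by_contra hcon
  apply h
  unfold Function.Injective at hcon
  push Not at hcon
  obtain ⟨a, b, hab, hne⟩ := hcon
  wlog hlt : a < b generalizing a b
  · exact this b a hab.symm hne.symm (by omega)
  obtain ⟨d, rfl⟩ := Nat.exists_eq_add_of_lt hlt
  have h1 : ∀ n, orb f x (a + d + 1 + n) = orb f x (a + n) := by
    intro n
    induction n with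
    | zero => exact hab.symm
    | succ n ih => rw [← add_assoc, ← add_assoc, orb_succ, orb_succ, ih]
  have h2 : ∀ n, ∃ m < a + d + 1, orb f x n = orb f x m := by
    intro n
    induction n using Nat.strong_induction_on with
    | _ n ih =>
      by_cases hn : n < a + d + 1
      · exact ⟨n, hn, rfl⟩
      · push Not at hn
        obtain ⟨k, rfl⟩ := Nat.exists_eq_add_of_le hn
        rw [h1]
        exact ih (a + k) (by omega)
  refine ((Set.finite_lt_nat (a + d + 1)).image (orb f x)).subset ?_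
  rintro _ ⟨n, rfl⟩
  obtain ⟨m, hm, hm'⟩ := h2 n
  exact ⟨m, hm, hm'.symm⟩

lemma hhat_lower (P : Ideal (𝓞 K)) [hP : P.IsMaximal] (hP0 : P ≠ ⊥) (f : (𝓞 K)[X])
    (hf : f.Monic) (hd : 2 ≤ f.natDegree) (s : ℕ) (hs : 1 ≤ s)
    (hred : FrobRed P (f.comp^[s] X)) {ε : ℝ} (hε : 0 < ε) (b : ℕ) :
    ∃ C : ℝ, 0 < C ∧ ∀ (L : Type*) [Field L] [NumberField L] [Algebra K L] (x : L) (κ : ℝ),
      (Set.range fun n : ℕ => orb f x n).Infinite → 1 ≤ κ →
      (∀ x' : 𝓞 L, (x' : L) = x → Steps (dg (f.comp^[s] X) x') (f.natDegree ^ s) κ b) →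
      C / (finrank K L : ℝ) ^ (κ + ε) ≤ hhat f x := by
  set g := f.comp^[s] X with hg
  have hgm : g.Monic := iter_monic hf hd s
  have hgd' : g.natDegree = f.natDegree ^ s := iter_natDegree f s
  have hgd : 2 ≤ g.natDegree := by
    rw [hgd']
    calc 2 ≤ f.natDegree := hd
      _ ≤ f.natDegree ^ s := Nat.le_self_pow (by omega) _
  obtain ⟨C, hC, hCL⟩ := totG_lower P hP0 g hgm hgd hred hε b
  have hK : (0 : ℝ) < finrank ℚ K := by exact_mod_cast (finrank_pos : 0 < finrank ℚ K)
  have hlog2 : 0 < Real.log 2 := Real.log_pos (by norm_num)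
  refine ⟨min (1 / (C * finrank ℚ K)) (Real.log 2 / finrank ℚ K), by positivity, ?_⟩
  intro L _ _ _ x κ hx hκ hst
  have hn : (0 : ℝ) < finrank K L := finrank_posR K L
  have hn1 : (1 : ℝ) ≤ finrank K L := by exact_mod_cast (finrank_pos : 0 < finrank K L)
  have hQ : (finrank ℚ L : ℝ) = finrank ℚ K * finrank K L := by
    exact_mod_cast (finrank_mul_finrank ℚ K L).symm
  rw [← hhat_iter hf hd hs x, ← hg]
  have hpow : (0 : ℝ) < (finrank K L : ℝ) ^ (κ + ε) := by positivity
  have hinj : Function.Injective (orb f x) := injective_of_infinite hx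
  have hinjg : Function.Injective (orb g x) := by
    intro a b hab
    rw [hg, orb_iter, orb_iter] at hab
    exact Nat.eq_of_mul_eq_mul_left (by omega) (hinj hab)
  rw [hhat, hQ, div_le_iff₀ hpow]
  by_cases hint : ∃ x' : 𝓞 L, (x' : L) = x
  · obtain ⟨x', hx'⟩ := hint
    have hinj' : Function.Injective (xs g x') := by
      intro a b hab
      apply hinjg
      rw [← hx', orb_coe, orb_coe, hab]
    have h1 := hCL L x' κ hinj' (by
      rw [hgd']
      exact hst x' hx')
    have h2 : 0 ≤ finPart x := finPart_nonneg x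
    have h3 : totGL g x = totG g x' := by rw [← hx', totGL_coe]
    rw [h3]
    refine (min_le_left _ _).trans ?_
    rw [div_mul_eq_mul_div, div_le_div_iff₀ (by positivity) (by positivity)]
    have h4 : (finrank K L : ℝ) ^ (κ + ε) =
        (finrank K L : ℝ) ^ (κ - 1 + ε) * finrank K L := by
      rw [← Real.rpow_add_one hn.ne']
      congr 1
      ring
    rw [h4]
    have h5 : (0 : ℝ) < (finrank K L : ℝ) ^ (κ - 1 + ε) := by positivity
    calc 1 * ((finrank ℚ K : ℝ) * finrank K L) =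
        1 * (finrank ℚ K * finrank K L) := rfl
      _ ≤ (C * (finrank K L : ℝ) ^ (κ - 1 + ε) * totG g x') * (finrank ℚ K * finrank K L) := by
          gcongr
      _ ≤ (C * (finrank K L : ℝ) ^ (κ - 1 + ε) * (totG g x' + finPart x)) *
          (finrank ℚ K * finrank K L) := by
          gcongr
          linarith
      _ = _ := by ring
  · have h1 := log_two_le_finPart hint
    have h2 := totGL_nonneg hgm hgd x
    refine (min_le_right _ _).trans ?_
    rw [div_mul_eq_mul_div, div_le_div_iff₀ (by positivity) (by positivity)]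
    have h3 : (finrank K L : ℝ) ≤ (finrank K L : ℝ) ^ (κ + ε) := by
      conv_lhs => rw [← Real.rpow_one (finrank K L : ℝ)]
      exact Real.rpow_le_rpow_of_exponent_le hn1 (by linarith)
    have h4 : Real.log 2 ≤ totGL g x + finPart x := by linarith
    calc Real.log 2 * ((finrank ℚ K : ℝ) * finrank K L) ≤
        (totGL g x + finPart x) * ((finrank ℚ K : ℝ) * (finrank K L : ℝ) ^ (κ + ε)) := by
          apply mul_le_mul h4 _ (by positivity) (by linarith)
          gcongr
      _ = _ := by ring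

/-! ### reduction modulo a prime -/

omit [NumberField K] in
lemma charP_quot {P : Ideal (𝓞 K)} [hP : P.IsMaximal] {p : ℕ} (hp : p.Prime)
    (hpP : (p : 𝓞 K) ∈ P) : CharP (𝓞 K ⧸ P) p := by
  have h0 : ((p : ℕ) : 𝓞 K ⧸ P) = 0 := by
    rw [← map_natCast (Ideal.Quotient.mk P) p]
    exact Ideal.Quotient.eq_zero_iff_mem.mpr hpP
  have hnt : Nontrivial (𝓞 K ⧸ P) := Ideal.Quotient.nontrivial_iff.mpr hP.ne_top
  obtain ⟨c, hc⟩ := CharP.exists (𝓞 K ⧸ P)
  have h1 : c ∣ p := (CharP.cast_eq_zero_iff (𝓞 K ⧸ P) c p).mp h0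
  rcases (Nat.dvd_prime hp).mp h1 with h2 | h2
  · exfalso
    exact CharP.char_ne_one (𝓞 K ⧸ P) c h2
  · rwa [h2] at hc

omit [NumberField K] in
lemma map_of_coeff {P : Ideal (𝓞 K)} {f : (𝓞 K)[X]} (hf : f.Monic) {q : ℕ} (hq : f.natDegree = q)
    (hq0 : 0 < q) (hco : ∀ i, 0 < i → i < q → f.coeff i ∈ P) :
    f.map (Ideal.Quotient.mk P) = X ^ q + C (Ideal.Quotient.mk P (f.coeff 0)) := by
  ext i
  rw [coeff_map, coeff_add, coeff_X_pow, coeff_C]
  rcases Nat.eq_zero_or_pos i with h | h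
  · rw [h, if_neg (by omega), if_pos rfl, zero_add]
  · rw [if_neg (by omega : ¬ i = 0), add_zero]
    rcases lt_trichotomy i q with h1 | h1 | h1
    · rw [if_neg h1.ne, Ideal.Quotient.eq_zero_iff_mem]
      exact hco i h h1
    · rw [if_pos h1, h1, ← hq, hf.coeff_natDegree, map_one]
    · rw [if_neg h1.ne', coeff_eq_zero_of_natDegree_lt (by omega), map_zero]

omit [NumberField K] in
lemma eval_iter (f : (𝓞 K)[X]) (s : ℕ) (y : 𝓞 K) :
    (f.comp^[s] X).eval y = (fun z => f.eval z)^[s] y := by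
  rw [iterate_comp_eval, eval_X]

omit [NumberField K] in
lemma map_iter {P : Ideal (𝓞 K)} [hP : P.IsMaximal] {p r : ℕ} (hp : p.Prime)
    (hpP : (p : 𝓞 K) ∈ P) {f : (𝓞 K)[X]} (hf : f.Monic) (hq : f.natDegree = p ^ r)
    (hco : ∀ i, 0 < i → i < p ^ r → f.coeff i ∈ P) (s : ℕ) :
    (f.comp^[s] X).map (Ideal.Quotient.mk P) = X ^ ((p ^ r) ^ s) +
      C (Ideal.Quotient.mk P ((fun z => f.eval z)^[s] 0)) := by
  have hchar := charP_quot hp hpP
  have : Fact p.Prime := ⟨hp⟩
  have hmap := map_of_coeff hf hq (pow_pos hp.pos r) hco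
  induction s with
  | zero => simp
  | succ s ih =>
    rw [Function.iterate_succ_apply', Function.iterate_succ_apply', Polynomial.map_comp, ih, hmap]
    simp only [add_comp, pow_comp, X_comp, C_comp]
    have h1 : (X ^ ((p ^ r) ^ s) + C (Ideal.Quotient.mk P ((fun z => f.eval z)^[s] 0)) :
        (𝓞 K ⧸ P)[X]) ^ (p ^ r) = X ^ ((p ^ r) ^ (s + 1)) +
          C ((Ideal.Quotient.mk P ((fun z => f.eval z)^[s] 0)) ^ (p ^ r)) := by
      rw [add_pow_char_pow, ← pow_mul, ← pow_succ, C_pow]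
    rw [h1, add_assoc, ← C_add]
    congr 2
    have h2 : Ideal.Quotient.mk P (f.eval ((fun z => f.eval z)^[s] 0)) =
        (f.map (Ideal.Quotient.mk P)).eval
          (Ideal.Quotient.mk P ((fun z => f.eval z)^[s] 0)) := by
      rw [eval_map, eval₂_at_apply]
    rw [h2, hmap]
    simp

lemma frobRed_of {P : Ideal (𝓞 K)} [hP : P.IsMaximal] {p r : ℕ} (hp : p.Prime)
    (hpP : (p : 𝓞 K) ∈ P) {f : (𝓞 K)[X]} (hf : f.Monic) (hq : f.natDegree = p ^ r)
    (hco : ∀ i, 0 < i → i < p ^ r → f.coeff i ∈ P) {s : ℕ}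
    (hs : (fun z => f.eval z)^[s] 0 ∈ P) (hk : ∃ k : ℕ, (p ^ r) ^ s = Ideal.absNorm P ^ k) :
    FrobRed P (f.comp^[s] X) := by
  obtain ⟨k, hk⟩ := hk
  refine ⟨k, ?_, ?_⟩
  · rw [iter_natDegree, hq, hk]
  · rw [map_iter hp hpP hf hq hco, Ideal.Quotient.eq_zero_iff_mem.mpr hs, C_0, add_zero, hk]

lemma exists_s {P : Ideal (𝓞 K)} [hP : P.IsMaximal] (hP0 : P ≠ ⊥) {p r : ℕ} (hp : p.Prime)
    (hpP : (p : 𝓞 K) ∈ P) {f : (𝓞 K)[X]} (hf : f.Monic) (hq : f.natDegree = p ^ r)
    (hco : ∀ i, 0 < i → i < p ^ r → f.coeff i ∈ P) :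
    ∃ s : ℕ, 1 ≤ s ∧ (fun z => f.eval z)^[s] 0 ∈ P ∧
      ∃ k : ℕ, (p ^ r) ^ s = Ideal.absNorm P ^ k := by
  have hchar := charP_quot hp hpP
  have : Fact p.Prime := ⟨hp⟩
  let : Field (𝓞 K ⧸ P) := Ideal.Quotient.field P
  have hfin : Finite (𝓞 K ⧸ P) := Ideal.finiteQuotientOfFreeOfNeBot P hP0
  let : Fintype (𝓞 K ⧸ P) := Fintype.ofFinite _
  have hcard : Ideal.absNorm P = Fintype.card (𝓞 K ⧸ P) := by
    rw [Ideal.absNorm_apply, Submodule.cardQuot_apply, Nat.card_eq_fintype_card]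
  obtain ⟨h, -, hh⟩ := FiniteField.card (𝓞 K ⧸ P) p
  set b : 𝓞 K ⧸ P := Ideal.Quotient.mk P (f.coeff 0) with hb
  set T : 𝓞 K ⧸ P → 𝓞 K ⧸ P := fun z => z ^ (p ^ r) + b with hT
  have hTinj : Function.Injective T := by
    intro x y hxy
    have h1 : x ^ (p ^ r) = y ^ (p ^ r) := add_right_cancel hxy
    exact iterateFrobenius_inj (𝓞 K ⧸ P) p r (by
      rw [iterateFrobenius_def, iterateFrobenius_def]
      exact h1)
  have hT' : ∀ n, Ideal.Quotient.mk P ((fun z => f.eval z)^[n] 0) = T^[n] 0 := by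
    intro n
    induction n with
    | zero => simp
    | succ n ih =>
      rw [Function.iterate_succ_apply', Function.iterate_succ_apply', ← ih]
      have h2 : Ideal.Quotient.mk P (f.eval ((fun z => f.eval z)^[n] 0)) =
          (f.map (Ideal.Quotient.mk P)).eval
            (Ideal.Quotient.mk P ((fun z => f.eval z)^[n] 0)) := by
        rw [eval_map, eval₂_at_apply]
      rw [h2, map_of_coeff hf hq (pow_pos hp.pos r) hco]
      simp [hT, hb]
  obtain ⟨a, c, hac, hac'⟩ := Finite.exists_ne_map_eq_of_infinite fun n : ℕ => T^[n] 0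
  obtain ⟨t, ht, ht'⟩ : ∃ t, 1 ≤ t ∧ T^[t] 0 = 0 := by
    wlog hlt : a < c generalizing a c
    · exact this c a hac.symm hac'.symm (by omega)
    refine ⟨c - a, by omega, ?_⟩
    have h3 : T^[a] (T^[c - a] 0) = T^[a] 0 := by
      rw [← Function.iterate_add_apply, Nat.add_sub_cancel' hlt.le]
      exact hac'.symm
    exact (hTinj.iterate a) h3
  refine ⟨t * h, Nat.mul_pos ht h.pos, ?_, r * t, ?_⟩
  · rw [← Ideal.Quotient.eq_zero_iff_mem, hT', Function.iterate_mul]
    exact Function.iterate_fixed ht' _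
  · rw [hcard, hh, ← pow_mul, ← pow_mul]
    congr 1
    ring

end

end Pool.Agent.H420R2
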